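import Mathlib

/-!
# Finite 2-groups with an element having few fixed points on a normal subgroup
-/

universe u

namespace MP63f86b

/-- A finite commutative group of exponent dividing `2^k` with at most `c` elements of
order dividing `2` has at most `c^k` elements. -/
theorem card_le_of_torsion (c : ℕ) (k : ℕ) :
    ∀ (A : Type u) [CommGroup A] [Finite A], (∀ a : A, a ^ (2 ^ k) = 1) →
      Nat.card {a : A // a ^ 2 = 1} ≤ c → Nat.card A ≤ c ^ k := by
  induction k with
  | zero =>
    intro A _ _ hA _
    have : Subsingleton A := ⟨fun a b => by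
      have h1 := hA a; have h2 := hA b
      simp at h1 h2; rw [h1, h2]⟩
    have : Nat.card A ≤ 1 := by
      rw [Finite.card_le_one_iff_subsingleton]; exact this
    simp only [pow_zero]; exact this
  | succ k ih =>
    intro A _ _ hA hc
    let φ : A →* A := powMonoidHom 2
    have h1 : Nat.card φ.ker * Nat.card φ.range = Nat.card A := by
      rw [← Subgroup.index_ker, Subgroup.card_mul_index]
    have h2 : Nat.card φ.ker ≤ c := by
      refine le_trans (le_of_eq ?_) hc
      apply Nat.card_congr
      exact Equiv.subtypeEquivRight (fun a => by simp [φ, MonoidHom.mem_ker])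
    have h3 : Nat.card φ.range ≤ c ^ k := by
      apply ih φ.range
      · rintro ⟨x, a, rfl⟩
        apply Subtype.ext
        simp only [φ, powMonoidHom_apply, SubmonoidClass.mk_pow, OneMemClass.coe_one]
        rw [← pow_mul, ← pow_succ']
        exact hA a
      · refine le_trans ?_ hc
        apply Nat.card_le_card_of_injective
          (fun x : {a : φ.range // a ^ 2 = 1} => (⟨x.1.1, by
            have := x.2
            have h := congrArg Subtype.val this
            simpa using h⟩ : {a : A // a ^ 2 = 1}))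
        intro x y hxy
        simp only [Subtype.mk.injEq] at hxy
        exact Subtype.ext (Subtype.ext hxy)
    calc Nat.card A = Nat.card φ.ker * Nat.card φ.range := h1.symm
      _ ≤ c * c ^ k := Nat.mul_le_mul h2 h3
      _ = c ^ (k + 1) := by rw [pow_succ']

/-- A nontrivial normal subgroup of a finite `2`-group contains a nontrivial central element. -/
theorem exists_central_mem {Q : Type*} [Group Q] [Finite Q] (hQ : IsPGroup 2 Q)
    (N : Subgroup Q) [N.Normal] (hN : N ≠ ⊥) : ∃ x ∈ N, x ≠ 1 ∧ x ∈ Subgroup.center Q := by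
  have : Fact (Nat.Prime 2) := ⟨Nat.prime_two⟩
  have hQ' : IsPGroup 2 (ConjAct Q) := hQ.of_equiv ConjAct.toConjAct
  have : Nontrivial N := (Subgroup.nontrivial_iff_ne_bot N).mpr hN
  have dvd : 2 ∣ Nat.card N := by
    obtain ⟨n, hn0, hn⟩ := (hQ.to_subgroup N).nontrivial_iff_card.mp inferInstance
    exact hn.symm ▸ dvd_pow_self _ (ne_of_gt hn0)
  have h1 : (1 : N) ∈ MulAction.fixedPoints (ConjAct Q) N := by
    intro g
    exact smul_one g
  obtain ⟨b, hb, hb1⟩ := hQ'.exists_fixed_point_of_prime_dvd_card_of_fixed_point N dvd h1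
  refine ⟨b.1, b.2, fun h => hb1 (Subtype.ext h.symm), ?_⟩
  rw [Subgroup.mem_center_iff]
  intro g
  have := hb (ConjAct.toConjAct g)
  have h2 : g * b.1 * g⁻¹ = b.1 := by
    have h3 := congrArg Subtype.val this
    rw [ConjAct.Subgroup.val_conj_smul] at h3
    simpa [ConjAct.smul_def] using h3
  calc g * b.1 = (g * b.1 * g⁻¹) * g := by group
    _ = b.1 * g := by rw [h2]

/-- The elements of `F` that commute with `x`. -/
def fixSet {P : Type*} [Group P] (F : Subgroup P) (x : P) : Subgroup P :=
  F ⊓ Subgroup.centralizer {x}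

theorem mem_fixSet {P : Type*} [Group P] {F : Subgroup P} {x f : P} :
    f ∈ fixSet F x ↔ f ∈ F ∧ x * f = f * x := by
  rw [fixSet, Subgroup.mem_inf, Subgroup.mem_centralizer_singleton_iff]
  constructor
  · rintro ⟨a, b⟩; exact ⟨a, b.symm⟩
  · rintro ⟨a, b⟩; exact ⟨a, b.symm⟩

/-- Abelian case. -/
theorem card_abelian_le {P : Type u} [Group P] [Finite P] (k c : ℕ)
    (hexp : ∀ g : P, g ^ (2 ^ k) = 1) (F A : Subgroup P) [A.Normal] (hAF : A ≤ F)
    (hA : ∀ a ∈ A, ∀ b ∈ A, a * b = b * a) (x : P)
    (hxx : ∀ f ∈ F, x * x * f = f * (x * x)) (hc : Nat.card (fixSet F x) ≤ c) :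
    Nat.card A ≤ c ^ k * c := by
  let _ : CommGroup A := { (inferInstance : Group A) with
    mul_comm := fun a b => Subtype.ext (hA a a.2 b b.2) }
  have hconj : ∀ a : A, x * a * x⁻¹ ∈ A := fun a => ‹A.Normal›.conj_mem a a.2 x
  let φ : A →* A :=
    { toFun := fun a => a * ⟨x * a * x⁻¹, hconj a⟩
      map_one' := by
        apply Subtype.ext; simp
      map_mul' := by
        intro a b
        have h1 : (⟨x * (a * b : A) * x⁻¹, hconj (a * b)⟩ : A)
            = ⟨x * a * x⁻¹, hconj a⟩ * ⟨x * b * x⁻¹, hconj b⟩ := by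
          apply Subtype.ext
          simp only [Subgroup.coe_mul]
          group
        rw [h1]
        exact mul_mul_mul_comm a b _ _ }
  have h1 : Nat.card φ.ker * Nat.card φ.range = Nat.card A := by
    rw [← Subgroup.index_ker, Subgroup.card_mul_index]
  have hr : Nat.card φ.range ≤ c := by
    refine le_trans ?_ hc
    apply Nat.card_le_card_of_injective
      (fun y : φ.range => (⟨(y.1 : P), by
        obtain ⟨_, a, rfl⟩ := y
        rw [mem_fixSet]
        refine ⟨hAF (φ a).2, ?_⟩
        have e1 : ((φ a : A) : P) = a * (x * a * x⁻¹) := rfl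
        have e2 : (a : P) * (x * a * x⁻¹) = (x * a * x⁻¹) * a := hA _ a.2 _ (hconj a)
        have e3 := hxx a (hAF a.2)
        have e4 : x * x * (a : P) * x⁻¹ * x⁻¹ = a := by rw [e3]; group
        rw [e1]
        calc x * (a * (x * a * x⁻¹)) = x * ((x * a * x⁻¹) * a) := by rw [e2]
          _ = (x * x * (a : P) * x⁻¹ * x⁻¹) * (x * a) := by group
          _ = a * (x * a) := by rw [e4]
          _ = a * (x * a * x⁻¹) * x := by group⟩ : fixSet F x))
    intro y z hyz
    simp only [Subtype.mk.injEq] at hyz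
    exact Subtype.ext (Subtype.ext hyz)
  have hk : Nat.card φ.ker ≤ c ^ k := by
    apply card_le_of_torsion c k φ.ker
    · intro a
      apply Subtype.ext; apply Subtype.ext
      simpa using hexp a
    · refine le_trans ?_ hc
      apply Nat.card_le_card_of_injective
        (fun y : {a : φ.ker // a ^ 2 = 1} => (⟨(y.1.1 : P), by
          obtain ⟨⟨a, ha⟩, ha2⟩ := y
          rw [mem_fixSet]
          refine ⟨hAF a.2, ?_⟩
          have e1 : (a : P) * (x * a * x⁻¹) = 1 := by
            have := congrArg Subtype.val (MonoidHom.mem_ker.mp ha)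
            exact this
          have e2 : (a : P) * a = 1 := by
            have h := congrArg Subtype.val ha2
            have h' := congrArg Subtype.val h
            simpa [pow_two] using h'
          have e3 : x * (a : P) * x⁻¹ = a := by
            have : (a : P) * (x * a * x⁻¹) = a * a := by rw [e1, e2]
            exact mul_left_cancel this
          calc x * (a : P) = (x * a * x⁻¹) * x := by group
            _ = a * x := by rw [e3]⟩ : fixSet F x))
      intro y z hyz
      simp only [Subtype.mk.injEq] at hyz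
      exact Subtype.ext (Subtype.ext (Subtype.ext hyz))
  calc Nat.card A = Nat.card φ.ker * Nat.card φ.range := h1.symm
    _ ≤ c ^ k * c := Nat.mul_le_mul hk hr

/-- The explicit bound. -/
def bnd (c k : ℕ) : ℕ := (c ^ k * c) * (c ^ k * c) ^ (c ^ k * c)

/-- A maximal abelian normal subgroup of a finite 2-group `P` inside a normal subgroup `F` is its
own centralizer in `F`. -/
theorem exists_selfcent {P : Type u} [Group P] [Finite P] (hP : IsPGroup 2 P) (F : Subgroup P)
    [F.Normal] : ∃ A : Subgroup P, A.Normal ∧ A ≤ F ∧ (∀ a ∈ A, ∀ b ∈ A, a * b = b * a) ∧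
      F ⊓ Subgroup.centralizer A ≤ A := by
  -- a maximal abelian normal subgroup of `P` inside `F`
  let S : Set (Subgroup P) := {A | A.Normal ∧ A ≤ F ∧ ∀ a ∈ A, ∀ b ∈ A, a * b = b * a}
  have hS : S.Finite := Set.toFinite _
  have hbot : (⊥ : Subgroup P) ∈ S := by
    refine ⟨inferInstance, bot_le, ?_⟩
    intro a ha b hb
    rw [Subgroup.mem_bot] at ha hb
    rw [ha, hb]
  obtain ⟨A, hAmax⟩ := hS.exists_maximal ⟨⊥, hbot⟩
  obtain ⟨hAn, hAF, hAc⟩ := hAmax.prop
  -- the centralizer of `A` in `F` is `A`
  let C : Subgroup P := F ⊓ Subgroup.centralizer A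
  have hCn : C.Normal := by
    constructor
    intro n hn g
    obtain ⟨h1, h2⟩ := Subgroup.mem_inf.mp hn
    refine Subgroup.mem_inf.mpr ⟨‹F.Normal›.conj_mem n h1 g, ?_⟩
    rw [Subgroup.mem_centralizer_iff] at h2 ⊢
    intro a ha
    have h3 : g⁻¹ * a * g ∈ A := by
      have := hAn.conj_mem a ha g⁻¹
      simpa using this
    have h4 := h2 _ h3
    calc a * (g * n * g⁻¹) = g * ((g⁻¹ * a * g) * n) * g⁻¹ := by group
      _ = g * (n * (g⁻¹ * a * g)) * g⁻¹ := by rw [h4]
      _ = g * n * g⁻¹ * a := by group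
  have hAC : A ≤ C := by
    intro a ha
    refine Subgroup.mem_inf.mpr ⟨hAF ha, ?_⟩
    rw [Subgroup.mem_centralizer_iff]
    intro b hb
    exact hAc b hb a ha
  have hCA : C ≤ A := by
    by_contra hnot
    let N : Subgroup (P ⧸ A) := C.map (QuotientGroup.mk' A)
    have hNn : N.Normal := hCn.map _ (QuotientGroup.mk'_surjective A)
    have hN : N ≠ ⊥ := by
      intro h
      apply hnot
      intro y hy
      have : (QuotientGroup.mk' A) y ∈ N := Subgroup.mem_map_of_mem _ hy
      rw [h, Subgroup.mem_bot] at this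
      exact (QuotientGroup.eq_one_iff y).mp this
    obtain ⟨z, hzN, hz1, hzc⟩ := exists_central_mem (hP.to_quotient A) N hN
    obtain ⟨y, hyC, rfl⟩ := Subgroup.mem_map.mp hzN
    let B : Subgroup P := (Subgroup.zpowers ((QuotientGroup.mk' A) y)).comap (QuotientGroup.mk' A)
    have hzn : (Subgroup.zpowers ((QuotientGroup.mk' A) y)).Normal := by
      constructor
      intro n hn g
      obtain ⟨i, rfl⟩ := Subgroup.mem_zpowers_iff.mp hn
      have h1 : ((QuotientGroup.mk' A) y) ^ i ∈ Subgroup.center (P ⧸ A) :=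
        Subgroup.zpow_mem _ hzc i
      rw [Subgroup.mem_center_iff] at h1
      rw [h1 g]
      simp
    have hBn : B.Normal := hzn.comap _
    have hAB : A ≤ B := by
      intro a ha
      rw [Subgroup.mem_comap]
      have : (QuotientGroup.mk' A) a = 1 := (QuotientGroup.eq_one_iff a).mpr ha
      rw [this]
      exact Subgroup.one_mem _
    have hform : ∀ b ∈ B, ∃ i : ℤ, ∃ a ∈ A, b = y ^ i * a := by
      intro b hb
      obtain ⟨i, hi⟩ := Subgroup.mem_zpowers_iff.mp (Subgroup.mem_comap.mp hb)
      refine ⟨i, (y ^ i)⁻¹ * b, ?_, by group⟩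
      rw [← map_zpow] at hi
      exact (QuotientGroup.eq (s := A)).mp hi
    have hyA : ∀ a ∈ A, y * a = a * y := by
      intro a ha
      exact ((Subgroup.mem_centralizer_iff.mp (Subgroup.mem_inf.mp hyC).2) a ha).symm
    have hyiA : ∀ a ∈ A, ∀ i : ℤ, y ^ i * a = a * y ^ i := by
      intro a ha i
      have : Commute y a := hyA a ha
      exact (this.zpow_left i).eq
    have hBS : B ∈ S := by
      refine ⟨hBn, ?_, ?_⟩
      · intro b hb
        obtain ⟨i, a, ha, rfl⟩ := hform b hb
        exact F.mul_mem (F.zpow_mem (Subgroup.mem_inf.mp hyC).1 i) (hAF ha)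
      · intro b hb b' hb'
        obtain ⟨i, a, ha, rfl⟩ := hform b hb
        obtain ⟨j, a', ha', rfl⟩ := hform b' hb'
        have e1 := hyiA a ha j
        have e2 := hyiA a' ha' i
        have e3 := hAc a ha a' ha'
        have e4 : y ^ i * y ^ j = y ^ j * y ^ i := by
          rw [← zpow_add, ← zpow_add, add_comm]
        calc y ^ i * a * (y ^ j * a') = y ^ i * (a * y ^ j) * a' := by group
          _ = y ^ i * (y ^ j * a) * a' := by rw [e1]
          _ = (y ^ i * y ^ j) * (a * a') := by group
          _ = (y ^ j * y ^ i) * (a' * a) := by rw [e4, e3]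
          _ = y ^ j * (y ^ i * a') * a := by group
          _ = y ^ j * (a' * y ^ i) * a := by rw [e2]
          _ = y ^ j * a' * (y ^ i * a) := by group
    have hBA : B ≤ A := hAmax.le_of_ge hBS hAB
    have : y ∈ B := Subgroup.mem_comap.mpr (Subgroup.mem_zpowers _)
    exact hz1 ((QuotientGroup.eq_one_iff y).mpr (hBA this))
  exact ⟨A, hAn, hAF, hAc, hCA⟩

theorem card_le_bnd {P : Type u} [Group P] [Finite P] (k c : ℕ)
    (hexp : ∀ g : P, g ^ (2 ^ k) = 1) (F : Subgroup P) [F.Normal] (x : P)
    (hxx : ∀ f ∈ F, x * x * f = f * (x * x)) (hc : Nat.card (fixSet F x) ≤ c) :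
    Nat.card F ≤ bnd c k := by
  have hP : IsPGroup 2 P := fun g => ⟨k, hexp g⟩
  obtain ⟨A, hAn, hAF, hAc, hCA⟩ := exists_selfcent hP F
  have hcardA : Nat.card A ≤ c ^ k * c := card_abelian_le k c hexp F A hAF hAc x hxx hc
  -- the conjugation action
  let ψ : F →* MulAut A := (MulAut.conjNormal (H := A)).comp F.subtype
  have hker : Nat.card ψ.ker ≤ Nat.card A := by
    apply Nat.card_le_card_of_injective
      (fun y : ψ.ker => (⟨(y.1 : P), by
        apply hCA
        refine Subgroup.mem_inf.mpr ⟨y.1.2, ?_⟩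
        rw [Subgroup.mem_centralizer_iff]
        intro a ha
        have h1 : ψ y.1 = 1 := MonoidHom.mem_ker.mp y.2
        have h2 : ((ψ y.1 ⟨a, ha⟩ : A) : P) = a := by rw [h1]; rfl
        have h3 : ((ψ y.1 ⟨a, ha⟩ : A) : P) = (y.1 : P) * a * (y.1 : P)⁻¹ := rfl
        rw [h3] at h2
        calc a * (y.1 : P) = ((y.1 : P) * a * (y.1 : P)⁻¹) * y.1 := by rw [h2]
          _ = y.1 * a := by group⟩ : A))
    intro y z hyz
    simp only [Subtype.mk.injEq] at hyz
    exact Subtype.ext (Subtype.ext hyz)
  have hrange : Nat.card ψ.range ≤ Nat.card A ^ Nat.card A := by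
    rw [← Nat.card_fun]
    apply Nat.card_le_card_of_injective (fun f : ψ.range => fun a : A => f.1 a)
    intro f g hfg
    apply Subtype.ext
    apply MulEquiv.ext
    intro a
    exact congrFun hfg a
  have h1 : Nat.card ψ.ker * Nat.card ψ.range = Nat.card F := by
    rw [← Subgroup.index_ker, Subgroup.card_mul_index]
  have hpos : 0 < c ^ k * c := lt_of_lt_of_le Nat.card_pos hcardA
  calc Nat.card F = Nat.card ψ.ker * Nat.card ψ.range := h1.symm
    _ ≤ Nat.card A * Nat.card A ^ Nat.card A := Nat.mul_le_mul hker hrange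
    _ ≤ bnd c k := by
      unfold bnd
      apply Nat.mul_le_mul hcardA
      calc Nat.card A ^ Nat.card A ≤ (c ^ k * c) ^ Nat.card A := Nat.pow_le_pow_left hcardA _
        _ ≤ (c ^ k * c) ^ (c ^ k * c) := Nat.pow_le_pow_right hpos hcardA

end MP63f86b
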