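import Pool.Agent.Lib.MP_63f86b_al.Simple

/-!
# Commensurators and FC-centres of subgroups
-/

universe u

open scoped Pointwise

open Subgroup

namespace MP63f86b

variable {G : Type u} [Group G]

/-- The commensurator. -/
abbrev Comm (E : Subgroup G) : Subgroup G := Subgroup.Commensurable.commensurator E

theorem centralizer_smul (g x : G) :
    ConjAct.toConjAct g • Subgroup.centralizer {x} = Subgroup.centralizer {g * x * g⁻¹} := by
  ext y
  rw [Subgroup.mem_pointwise_smul_iff_inv_smul_mem, Subgroup.mem_centralizer_singleton_iff,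
    Subgroup.mem_centralizer_singleton_iff, ← ConjAct.toConjAct_inv, ConjAct.toConjAct_smul]
  constructor
  · intro h
    calc y * (g * x * g⁻¹) = g * (g⁻¹ * y * g⁻¹⁻¹ * x) * g⁻¹ := by group
      _ = g * (x * (g⁻¹ * y * g⁻¹⁻¹)) * g⁻¹ := by rw [h]
      _ = g * x * g⁻¹ * y := by group
  · intro h
    calc g⁻¹ * y * g⁻¹⁻¹ * x = g⁻¹ * (y * (g * x * g⁻¹)) * g := by group
      _ = g⁻¹ * (g * x * g⁻¹ * y) * g := by rw [h]
      _ = x * (g⁻¹ * y * g⁻¹⁻¹) := by group

theorem le_Comm (E : Subgroup G) : E ≤ Comm E := by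
  intro x hx
  rw [Subgroup.Commensurable.commensurator_mem_iff]
  have : ConjAct.toConjAct x • E = E := by
    ext y
    rw [Subgroup.mem_pointwise_smul_iff_inv_smul_mem, ← ConjAct.toConjAct_inv,
      ConjAct.toConjAct_smul]
    constructor
    · intro h
      have h2 := E.mul_mem (E.mul_mem hx h) (E.inv_mem hx)
      have h3 : x * (x⁻¹ * y * x⁻¹⁻¹) * x⁻¹ = y := by group
      rwa [h3] at h2
    · intro h
      exact E.mul_mem (E.mul_mem (E.inv_mem hx) h) (by simpa using hx)
  rw [this]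

/-- A sufficient condition for membership in the commensurator. -/
theorem mem_Comm_of (E L L' : Subgroup G) (x : G) (hL : L.relIndex E ≠ 0)
    (hL' : L'.relIndex E ≠ 0) (h : ∀ g ∈ L, g ∈ E → x * g * x⁻¹ ∈ E)
    (h' : ∀ g ∈ L', g ∈ E → x⁻¹ * g * x ∈ E) : x ∈ Comm E := by
  rw [Subgroup.Commensurable.commensurator_mem_iff]
  have h1 : ConjAct.toConjAct x • (L ⊓ E) ≤ E := by
    intro y hy
    rw [Subgroup.mem_pointwise_smul_iff_inv_smul_mem, ← ConjAct.toConjAct_inv,
      ConjAct.toConjAct_smul] at hy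
    have h3 := h _ hy.1 hy.2
    have h4 : x * (x⁻¹ * y * x⁻¹⁻¹) * x⁻¹ = y := by group
    rwa [h4] at h3
  have h2 : L' ⊓ E ≤ ConjAct.toConjAct x • E := by
    intro y hy
    rw [Subgroup.mem_pointwise_smul_iff_inv_smul_mem, ← ConjAct.toConjAct_inv,
      ConjAct.toConjAct_smul]
    have h3 := h' _ hy.1 hy.2
    simpa using h3
  constructor
  · -- (x • E).relIndex E ≠ 0
    have h3 : (L' ⊓ E).relIndex E ≠ 0 := by rwa [Subgroup.inf_relIndex_right]
    exact fun h0 => h3 (Subgroup.relIndex_eq_zero_of_le_left h2 h0)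
  · have h3 : (L ⊓ E).relIndex E ≠ 0 := by rwa [Subgroup.inf_relIndex_right]
    have h4 : (ConjAct.toConjAct x • (L ⊓ E)).relIndex (ConjAct.toConjAct x • E) ≠ 0 := by
      rwa [Subgroup.relIndex_pointwise_smul]
    exact fun h0 => h4 (Subgroup.relIndex_eq_zero_of_le_left h1 h0)

/-- Elements of `G` which centralise a subgroup of finite index in `E`. -/
def Delta (E : Subgroup G) : Subgroup G where
  carrier := {x | (Subgroup.centralizer {x}).relIndex E ≠ 0}
  one_mem' := by
    have : Subgroup.centralizer {(1 : G)} = ⊤ := by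
      rw [eq_top_iff]
      intro g _
      rw [Subgroup.mem_centralizer_singleton_iff]; simp
    change (Subgroup.centralizer {(1 : G)}).relIndex E ≠ 0
    rw [this, Subgroup.relIndex_top_left]
    exact one_ne_zero
  mul_mem' := by
    intro a b ha hb
    have h1 : Subgroup.centralizer {a} ⊓ Subgroup.centralizer {b} ≤
        Subgroup.centralizer {a * b} := by
      intro g hg
      have hga := Subgroup.mem_centralizer_singleton_iff.mp hg.1
      have hgb := Subgroup.mem_centralizer_singleton_iff.mp hg.2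
      rw [Subgroup.mem_centralizer_singleton_iff]
      calc g * (a * b) = (g * a) * b := by group
        _ = a * (g * b) := by rw [hga]; group
        _ = a * b * g := by rw [hgb]; group
    have h2 := Subgroup.relIndex_inf_ne_zero ha hb
    exact fun h0 => h2 (Subgroup.relIndex_eq_zero_of_le_left h1 h0)
  inv_mem' := by
    intro a ha
    have : Subgroup.centralizer {a⁻¹} = Subgroup.centralizer {a} := by
      ext g
      rw [Subgroup.mem_centralizer_singleton_iff, Subgroup.mem_centralizer_singleton_iff]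
      constructor
      · intro h
        calc g * a = a * (a⁻¹ * g) * a := by group
          _ = a * (g * a⁻¹) * a := by rw [h]
          _ = a * g := by group
      · intro h
        calc g * a⁻¹ = a⁻¹ * (a * g) * a⁻¹ := by group
          _ = a⁻¹ * (g * a) * a⁻¹ := by rw [h]
          _ = a⁻¹ * g := by group
    change (Subgroup.centralizer {a⁻¹}).relIndex E ≠ 0
    rw [this]
    exact ha

theorem mem_Delta {E : Subgroup G} {x : G} :
    x ∈ Delta E ↔ (Subgroup.centralizer {x}).relIndex E ≠ 0 := Iff.rfl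

theorem Delta_conj (E : Subgroup G) (g x : G) (hg : g ∈ Comm E) (hx : x ∈ Delta E) :
    g * x * g⁻¹ ∈ Delta E := by
  rw [mem_Delta, ← centralizer_smul]
  rw [Subgroup.Commensurable.commensurator_mem_iff] at hg
  have h1 : (ConjAct.toConjAct g • Subgroup.centralizer {x}).relIndex
      (ConjAct.toConjAct g • E) ≠ 0 := by
    rw [Subgroup.relIndex_pointwise_smul]
    exact hx
  exact Subgroup.relIndex_ne_zero_trans h1 hg.1

/-- In a simple example, an infinite subgroup with nontrivial `Delta` is not commensurated by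
the whole group. -/
theorem SimpleExample.Comm_ne_top (h : SimpleExample G) (E : Subgroup G)
    (hinf : (E : Set G).Infinite) (hD : Delta E ≠ ⊥) : Comm E ≠ ⊤ := by
  intro htop
  have hn : (Delta E).Normal := by
    constructor
    intro x hx g
    exact Delta_conj E g x (by rw [htop]; exact Subgroup.mem_top g) hx
  have hDtop : Delta E = ⊤ := (h.simple _ hn).resolve_left hD
  obtain ⟨S, hS, hfin⟩ := Group.fg_iff.mp h.fg
  have : Finite S := hfin.to_subtype
  have h1 : (⨅ s : S, Subgroup.centralizer {(s : G)}).relIndex E ≠ 0 := by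
    apply Subgroup.relIndex_iInf_ne_zero
    intro s
    rw [← mem_Delta, hDtop]
    exact Subgroup.mem_top _
  have h2 : (⨅ s : S, Subgroup.centralizer {(s : G)}) ≤ ⊥ := by
    intro x hx
    rw [Subgroup.mem_bot]
    apply h.eq_one_of_central
    intro g
    have hx' : ∀ s ∈ S, x * s = s * x := by
      intro s hs
      have := (Subgroup.mem_iInf.mp hx) ⟨s, hs⟩
      exact Subgroup.mem_centralizer_singleton_iff.mp this
    have hg : g ∈ Subgroup.closure S := by rw [hS]; exact Subgroup.mem_top g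
    have hle : Subgroup.closure S ≤ Subgroup.centralizer {x} := by
      rw [Subgroup.closure_le]
      intro s hs
      exact Subgroup.mem_centralizer_singleton_iff.mpr (hx' s hs).symm
    exact Subgroup.mem_centralizer_singleton_iff.mp (hle hg)
  have h3 : (⊥ : Subgroup G).relIndex E ≠ 0 :=
    fun h0 => h1 (Subgroup.relIndex_eq_zero_of_le_left h2 h0)
  rw [Subgroup.relIndex_bot_left] at h3
  have : Finite E := Nat.finite_of_card_ne_zero h3
  exact hinf (Set.toFinite _)

/-- Every nontrivial quotient of `H` has a nontrivial element with finitely many conjugates. -/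
def FH (H : Subgroup G) : Prop :=
  ∀ K : Subgroup G, K ≤ H → (∀ h ∈ H, ∀ x ∈ K, h * x * h⁻¹ ∈ K) → K ≠ H →
    ∃ x ∈ H, x ∉ K ∧ ∃ L : Subgroup G, L.relIndex H ≠ 0 ∧ ∀ g ∈ L, g ∈ H →
      x * g * x⁻¹ * g⁻¹ ∈ K

/-- `H` has a finite FC-series. -/
def FN (H : Subgroup G) : Prop :=
  ∃ (n : ℕ) (W : ℕ → Subgroup G), W 0 = ⊥ ∧ W n = H ∧ (∀ i, W i ≤ H) ∧ ∀ i, ∀ x ∈ W (i + 1),
    ∃ L : Subgroup G, L.relIndex H ≠ 0 ∧ ∀ g ∈ L, g ∈ H → x * g * x⁻¹ * g⁻¹ ∈ W i

/-- A nontrivial subgroup of an FC-nilpotent group has a nontrivial element centralising a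
subgroup of finite index. -/
theorem Delta_ne_bot (M E : Subgroup G) (hEM : E ≤ M) (hE : E ≠ ⊥) (hF : FN M) :
    Delta E ≠ ⊥ := by
  classical
  obtain ⟨n, W, hW0, hWn, hWM, hW⟩ := hF
  have hex : ∃ i, W i ⊓ E ≠ ⊥ := ⟨n, by rw [hWn, inf_eq_right.mpr hEM]; exact hE⟩
  have hspec := Nat.find_spec hex
  have hmin := fun i => @Nat.find_min _ _ hex i
  cases hi : Nat.find hex with
  | zero =>
    rw [hi, hW0] at hspec
    simp at hspec
  | succ i =>
    rw [hi] at hspec
    have hbot : W i ⊓ E = ⊥ := by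
      have := hmin i (by omega)
      simpa using this
    obtain ⟨⟨x, hx⟩, hx1⟩ := Subgroup.ne_bot_iff_exists_ne_one.mp hspec
    have hx1' : x ≠ 1 := fun h0 => hx1 (Subtype.ext h0)
    obtain ⟨L, hL, hLx⟩ := hW i x hx.1
    intro hD
    apply hx1'
    rw [← Subgroup.mem_bot, ← hD, mem_Delta]
    have h1 : L ⊓ E ≤ Subgroup.centralizer {x} := by
      intro g hg
      have h2 : x * g * x⁻¹ * g⁻¹ ∈ W i ⊓ E :=
        ⟨hLx g hg.1 (hEM hg.2),
          E.mul_mem (E.mul_mem (E.mul_mem hx.2 hg.2) (E.inv_mem hx.2)) (E.inv_mem hg.2)⟩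
      rw [hbot, Subgroup.mem_bot] at h2
      rw [Subgroup.mem_centralizer_singleton_iff]
      have h3 : x * g * x⁻¹ = g := by
        calc x * g * x⁻¹ = (x * g * x⁻¹ * g⁻¹) * g := by group
          _ = g := by rw [h2, one_mul]
      calc g * x = (x * g * x⁻¹) * x := by rw [h3]
        _ = x * g := by group
    have h4 : (L ⊓ E).relIndex E ≠ 0 := by
      rw [Subgroup.inf_relIndex_right]
      exact fun h0 => hL (Subgroup.relIndex_eq_zero_of_le_right hEM h0)
    exact fun h0 => h4 (Subgroup.relIndex_eq_zero_of_le_left h1 h0)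

/-- The commensurator condition: no proper subgroup of `M` is its own commensurator in `M`. -/
def CC (M : Subgroup G) : Prop := ∀ E : Subgroup G, E < M → ∃ y ∈ M, y ∉ E ∧ y ∈ Comm E

/-- In an FC-hypercentral group no proper subgroup is its own commensurator. -/
theorem exists_mem_Comm (M E : Subgroup G) (hEM : E < M) (hF : FH M) :
    ∃ y ∈ M, y ∉ E ∧ y ∈ Comm E := by
  -- the core of `E` in `M`
  let K : Subgroup G :=
    { carrier := {g | g ∈ M ∧ ∀ m ∈ M, m * g * m⁻¹ ∈ E}
      one_mem' := ⟨M.one_mem, fun m _ => by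
        have : m * 1 * m⁻¹ = 1 := by group
        rw [this]; exact E.one_mem⟩
      mul_mem' := by
        rintro a b ⟨ha, ha'⟩ ⟨hb, hb'⟩
        refine ⟨M.mul_mem ha hb, fun m hm => ?_⟩
        have : m * (a * b) * m⁻¹ = (m * a * m⁻¹) * (m * b * m⁻¹) := by group
        rw [this]
        exact E.mul_mem (ha' m hm) (hb' m hm)
      inv_mem' := by
        rintro a ⟨ha, ha'⟩
        refine ⟨M.inv_mem ha, fun m hm => ?_⟩
        have : m * a⁻¹ * m⁻¹ = (m * a * m⁻¹)⁻¹ := by group
        rw [this]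
        exact E.inv_mem (ha' m hm) }
  have hKE : K ≤ E := by
    intro g hg
    have := hg.2 1 M.one_mem
    simpa using this
  have hKM : K ≤ M := fun g hg => hg.1
  have hKn : ∀ h ∈ M, ∀ x ∈ K, h * x * h⁻¹ ∈ K := by
    intro h hh x hx
    refine ⟨M.mul_mem (M.mul_mem hh hx.1) (M.inv_mem hh), fun m hm => ?_⟩
    have : m * (h * x * h⁻¹) * m⁻¹ = (m * h) * x * (m * h)⁻¹ := by group
    rw [this]
    exact hx.2 _ (M.mul_mem hm hh)
  have hKne : K ≠ M := by
    intro h0
    exact absurd (h0 ▸ hKE) (not_le_of_gt hEM)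
  obtain ⟨x0, hx0M, hx0K, L, hL, hLx⟩ := hF K hKM hKn hKne
  have : ∃ m ∈ M, m * x0 * m⁻¹ ∉ E := by
    by_contra hcon
    push Not at hcon
    exact hx0K ⟨hx0M, hcon⟩
  obtain ⟨m, hm, hmE⟩ := this
  have hxM : m * x0 * m⁻¹ ∈ M := M.mul_mem (M.mul_mem hm hx0M) (M.inv_mem hm)
  refine ⟨m * x0 * m⁻¹, hxM, hmE, ?_⟩
  have hmM : ConjAct.toConjAct m • M = M := by
    ext y
    rw [Subgroup.mem_pointwise_smul_iff_inv_smul_mem, ← ConjAct.toConjAct_inv,
      ConjAct.toConjAct_smul]
    constructor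
    · intro h
      have h2 := M.mul_mem (M.mul_mem hm h) (M.inv_mem hm)
      have h3 : m * (m⁻¹ * y * m⁻¹⁻¹) * m⁻¹ = y := by group
      rwa [h3] at h2
    · intro h
      exact M.mul_mem (M.mul_mem (M.inv_mem hm) h) (by simpa using hm)
  let L' : Subgroup G := ConjAct.toConjAct m • L
  have hL'M : L'.relIndex M ≠ 0 := by
    have : L'.relIndex (ConjAct.toConjAct m • M) ≠ 0 := by
      rwa [Subgroup.relIndex_pointwise_smul]
    rwa [hmM] at this
  have hL'E : L'.relIndex E ≠ 0 :=
    fun h0 => hL'M (Subgroup.relIndex_eq_zero_of_le_right hEM.le h0)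
  -- commutators
  have hcomm : ∀ g ∈ L', g ∈ M →
      (m * x0 * m⁻¹) * g * (m * x0 * m⁻¹)⁻¹ * g⁻¹ ∈ K := by
    intro g hg hgM
    rw [Subgroup.mem_pointwise_smul_iff_inv_smul_mem, ← ConjAct.toConjAct_inv,
      ConjAct.toConjAct_smul] at hg
    have h1 := hLx _ hg (M.mul_mem (M.mul_mem (M.inv_mem hm) hgM) (by simpa using hm))
    have h2 := hKn m hm _ h1
    have h3 : m * (x0 * (m⁻¹ * g * m⁻¹⁻¹) * x0⁻¹ * (m⁻¹ * g * m⁻¹⁻¹)⁻¹) * m⁻¹ =
        (m * x0 * m⁻¹) * g * (m * x0 * m⁻¹)⁻¹ * g⁻¹ := by group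
    rwa [h3] at h2
  apply mem_Comm_of E L' L' _ hL'E hL'E
  · intro g hg hgE
    have h1 := hKE (hcomm g hg (hEM.le hgE))
    have h2 := E.mul_mem h1 hgE
    simpa using h2
  · intro g hg hgE
    have h1 := hcomm g hg (hEM.le hgE)
    have h2 := hKn _ (M.inv_mem hxM) _ (K.inv_mem h1)
    have h3 := E.mul_mem (hKE h2) hgE
    have h4 : (m * x0 * m⁻¹)⁻¹ * (m * x0 * m⁻¹ * g * (m * x0 * m⁻¹)⁻¹ * g⁻¹)⁻¹ *
        (m * x0 * m⁻¹)⁻¹⁻¹ * g = (m * x0 * m⁻¹)⁻¹ * g * (m * x0 * m⁻¹) := by group
    rwa [h4] at h3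

/-- Step A: an FC-nilpotent maximal subgroup meets every other maximal subgroup in a finite
group. -/
theorem SimpleExample.stepA (h : SimpleExample G) (hCC : ∀ H : Subgroup G, IsCoatom H → CC H)
    (M : Subgroup G) (hM : IsCoatom M) (hFN : FN M) : ∀ M' : Subgroup G, IsCoatom M' → M' ≠ M →
      ((M ⊓ M' : Subgroup G) : Set G).Infinite → False := by
  have hFN' := hFN
  obtain ⟨n, W, hW0, hWn, hWM, hW⟩ := hFN
  intro M0 hM0 hM0ne hM0inf
  have claim : ∀ j : ℕ, ∃ M' : Subgroup G, IsCoatom M' ∧ M' ≠ M ∧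
      ((M ⊓ M' : Subgroup G) : Set G).Infinite ∧ ∀ i < j, W i ≤ M' := by
    intro j
    induction j with
    | zero => exact ⟨M0, hM0, hM0ne, hM0inf, fun i hi => absurd hi (Nat.not_lt_zero i)⟩
    | succ j ih =>
      obtain ⟨M', hM', hne, hinf, hWi⟩ := ih
      by_cases hWj : W j ≤ M'
      · refine ⟨M', hM', hne, hinf, fun i hi => ?_⟩
        rcases Nat.lt_succ_iff_lt_or_eq.mp hi with h1 | h1
        · exact hWi i h1
        · rw [h1]; exact hWj
      · obtain ⟨i, rfl⟩ : ∃ i, j = i + 1 := by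
          cases j with
          | zero => exact absurd (by rw [hW0]; exact bot_le) hWj
          | succ i => exact ⟨i, rfl⟩
        set E : Subgroup G := M ⊓ M' with hE
        have hEbot : E ≠ ⊥ := by
          intro h0
          rw [h0] at hinf
          exact hinf (by simp)
        have hC : Comm E ≠ ⊤ :=
          h.Comm_ne_top E hinf (Delta_ne_bot M E inf_le_left hEbot hFN')
        obtain ⟨M2, hM2, hle⟩ := exists_coatom h.fg _ hC
        have hEM2 : E ≤ M2 := (le_Comm E).trans hle
        have hWiE : W i ≤ E := le_inf (hWM i) (hWi i (Nat.lt_succ_self i))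
        refine ⟨M2, hM2, ?_, ?_, ?_⟩
        · -- `M2 ≠ M`
          rintro rfl
          have hlt : E < M' := by
            refine lt_of_le_of_ne inf_le_right ?_
            intro h0
            have h1 : M' ≤ M2 := by
              rw [← h0]; exact inf_le_left
            rcases h1.eq_or_lt with h2 | h2
            · exact hne h2
            · exact hM.1 (hM'.2 _ h2)
          obtain ⟨y, hyM', hyE, hyC⟩ := hCC M' hM' E hlt
          exact hyE ⟨hle hyC, hyM'⟩
        · exact hinf.mono (fun g hg => ⟨hg.1, hEM2 hg⟩)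
        · intro l hl
          rcases Nat.lt_succ_iff_lt_or_eq.mp hl with h1 | h1
          · have : W l ≤ E := le_inf (hWM l) (hWi l h1)
            exact this.trans hEM2
          · rw [h1]
            intro x hx
            apply hle
            obtain ⟨L, hL, hLx⟩ := hW i x hx
            obtain ⟨L', hL', hLx'⟩ := hW i x⁻¹ ((W (i + 1)).inv_mem hx)
            have hEM : E ≤ M := inf_le_left
            apply mem_Comm_of E L L' x
              (fun h0 => hL (Subgroup.relIndex_eq_zero_of_le_right hEM h0))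
              (fun h0 => hL' (Subgroup.relIndex_eq_zero_of_le_right hEM h0))
            · intro g hg hgE
              have h2 := E.mul_mem (hWiE (hLx g hg (hEM hgE))) hgE
              simpa using h2
            · intro g hg hgE
              have h2 := E.mul_mem (hWiE (hLx' g hg (hEM hgE))) hgE
              simpa using h2
  obtain ⟨M', hM', hne, _, hWi⟩ := claim (n + 1)
  have h1 : M ≤ M' := by rw [← hWn]; exact hWi n (Nat.lt_succ_self n)
  rcases h1.eq_or_lt with h2 | h2
  · exact hne h2.symm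
  · exact hM'.1 (hM.2 _ h2)

/-- The final contradiction: a maximal subgroup cannot contain the centralizers of all its
involutions. -/
theorem SimpleExample.final (h : SimpleExample G) (M : Subgroup G) (hM : IsCoatom M)
    (stepB : ∀ z ∈ M, z ≠ 1 → z * z = 1 → Subgroup.centralizer {z} ≤ M) : False := by
  obtain ⟨z, hz, hz1, hz2⟩ : ∃ z ∈ M, z ≠ 1 ∧ z * z = 1 := by
    obtain ⟨x, hx⟩ := Subgroup.ne_bot_iff_exists_ne_one.mp (h.coatom_ne_bot M hM)
    obtain ⟨j, hj1, hj2⟩ := exists_involution_pow h.tor x.1 (fun h0 => hx (Subtype.ext h0))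
    exact ⟨x.1 ^ (2 ^ j), M.pow_mem x.2 _, hj1, hj2⟩
  have stepC : ∀ s : G, s ≠ 1 → s * s = 1 → s ∈ M := by
    intro s hs1 hs2
    obtain ⟨u, hu1, hu2, hsu, hzu⟩ := exists_common_involution h.tor s z hs1 hs2 hz2
    have huM : u ∈ M := stepB z hz hz1 hz2 (Subgroup.mem_centralizer_singleton_iff.mpr hzu.symm)
    exact stepB u huM hu1 hu2 (Subgroup.mem_centralizer_singleton_iff.mpr hsu)
  have hn : (Subgroup.closure {s : G | s ≠ 1 ∧ s * s = 1}).Normal := by
    constructor
    intro x hx g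
    have h1 : Subgroup.closure {s : G | s ≠ 1 ∧ s * s = 1} ≤
        (Subgroup.closure {s : G | s ≠ 1 ∧ s * s = 1}).comap (MulAut.conj g).toMonoidHom := by
      rw [Subgroup.closure_le]
      rintro s ⟨hs1, hs2⟩
      apply Subgroup.subset_closure
      refine ⟨?_, ?_⟩
      · intro h0
        apply hs1
        have h0' : g * s * g⁻¹ = 1 := h0
        have : s = g⁻¹ * (g * s * g⁻¹) * g := by group
        rw [this, h0']; group
      · change g * s * g⁻¹ * (g * s * g⁻¹) = 1
        calc g * s * g⁻¹ * (g * s * g⁻¹) = g * (s * s) * g⁻¹ := by group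
          _ = 1 := by rw [hs2]; group
    exact h1 hx
  rcases h.simple _ hn with h1 | h1
  · have : z ∈ Subgroup.closure {s : G | s ≠ 1 ∧ s * s = 1} :=
      Subgroup.subset_closure ⟨hz1, hz2⟩
    rw [h1, Subgroup.mem_bot] at this
    exact hz1 this
  · apply hM.1
    rw [eq_top_iff, ← h1, Subgroup.closure_le]
    rintro s ⟨hs1, hs2⟩
    exact stepC s hs1 hs2

end MP63f86b
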