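import Mathlib

/-!
# Definitions used in the statements about MP_63f86b_al
-/

namespace MP63f86b

/-- A group is locally finite if each of its finitely generated subgroups is finite. -/
def LocallyFinite (H : Type*) [Group H] : Prop :=
  ∀ K : Subgroup H, K.FG → Finite K

/-- `H` is FC-hypercentral: for every proper normal subgroup `K` of `H` there is an element
`x ∉ K` such that `[x, g] ∈ K` for all `g` in some subgroup of finite index; that is, every
nontrivial quotient `H / K` has a nontrivial element with only finitely many conjugates. -/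
def FCHypercentral (H : Type*) [Group H] : Prop :=
  ∀ K : Subgroup H, K.Normal → K ≠ ⊤ →
    ∃ x : H, x ∉ K ∧ ∃ L : Subgroup H, L.FiniteIndex ∧ ∀ g ∈ L, x * g * x⁻¹ * g⁻¹ ∈ K

/-- `H` is FC-nilpotent: it has a finite series `1 = W 0, W 1, ..., W n = H` of normal
subgroups such that every element of `W (i + 1)` commutes modulo `W i` with all elements of some
subgroup of finite index of `H`; that is, it has only finitely many conjugates modulo `W i`. -/
def FCNilpotent (H : Type*) [Group H] : Prop :=
  ∃ (n : ℕ) (W : ℕ → Subgroup H), W 0 = ⊥ ∧ W n = ⊤ ∧ (∀ i, (W i).Normal) ∧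
    ∀ i, ∀ x ∈ W (i + 1), ∃ L : Subgroup H, L.FiniteIndex ∧ ∀ g ∈ L, x * g * x⁻¹ * g⁻¹ ∈ W i

/-- The commensurator condition: every proper subgroup `E` of `H` is properly contained in its
commensurator, i.e. there is `y ∉ E` such that `E ∩ y E y⁻¹` has finite index in `E` and in
`y E y⁻¹`. -/
def CommensuratorCondition (H : Type*) [Group H] : Prop :=
  ∀ E : Subgroup H, E ≠ ⊤ → ∃ y : H, y ∉ E ∧ y ∈ Subgroup.Commensurable.commensurator E

end MP63f86b
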