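import Pool.Agent.Lib.MP_63f86b_al.Limit
import Pool.Agent.Lib.MP_63f86b_al.Comm

/-!
# The main theorem for infinite simple 2-groups
-/

universe u

open scoped Pointwise

namespace MP63f86b

variable {G : Type u} [Group G]

/-- Elements inverted by `t` commute. -/
theorem comm_of_inverted (B : Subgroup G) (t : G) (hB : ∀ b ∈ B, t * b * t⁻¹ = b⁻¹) :
    ∀ a ∈ B, ∀ b ∈ B, a * b = b * a := by
  intro a ha b hb
  have h1 := hB _ (B.mul_mem ha hb)
  have h2 : t * (a * b) * t⁻¹ = (t * a * t⁻¹) * (t * b * t⁻¹) := by group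
  rw [h2, hB a ha, hB b hb] at h1
  have h3 : (a⁻¹ * b⁻¹)⁻¹ = ((a * b)⁻¹)⁻¹ := by rw [h1]
  rw [inv_inv, mul_inv_rev, inv_inv, inv_inv] at h3
  exact h3.symm

/-- Virtually abelian subgroups are FC-nilpotent. -/
theorem FN_of_abelian (M B : Subgroup G) (hBM : B ≤ M) (hidx : B.relIndex M ≠ 0)
    (hcomm : ∀ a ∈ B, ∀ b ∈ B, a * b = b * a)
    (hn : ∀ b ∈ B, ∀ h ∈ M, h * b * h⁻¹ ∈ B) : FN M := by
  refine ⟨2, fun i => if i = 0 then ⊥ else if i = 1 then B else M, by simp, by simp, ?_, ?_⟩
  · intro i
    by_cases h0 : i = 0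
    · simp [h0]
    · by_cases h1 : i = 1
      · simp [h1, hBM]
      · simp [h0, h1]
  · intro i x hx
    refine ⟨B, hidx, fun g hg hgM => ?_⟩
    by_cases h0 : i = 0
    · subst h0
      simp only [zero_add, one_ne_zero, if_false, if_true] at hx
      have h1 : x * g * x⁻¹ * g⁻¹ = 1 := by
        rw [hcomm x hx g hg]; group
      simp [h1]
    · have hxM : x ∈ M := by
        have h2 : i + 1 ≠ 0 := by omega
        have h3 : i + 1 ≠ 1 := by omega
        simpa [h2, h3, h0] using hx
      have h4 : x * g * x⁻¹ * g⁻¹ ∈ B := B.mul_mem (hn g hg x hxM) (B.inv_mem hg)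
      by_cases h1 : i = 1
      · simpa [h1] using h4
      · simpa [h0, h1] using hBM h4

theorem infinite_of_relIndex {B M : Subgroup G} (hM : (M : Set G).Infinite)
    (h : B.relIndex M ≠ 0) : ((B ⊓ M : Subgroup G) : Set G).Infinite := by
  intro hfin
  apply hM
  have h1 : (B.subgroupOf M).index ≠ 0 := h
  have hfin' : Finite (B ⊓ M : Subgroup G) := hfin.to_subtype
  have h2 : Finite (B.subgroupOf M) := by
    apply Finite.of_injective (fun x : B.subgroupOf M => (⟨(x.1 : G),
      ⟨Subgroup.mem_subgroupOf.mp x.2, x.1.2⟩⟩ : (B ⊓ M : Subgroup G)))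
    intro x y hxy
    simp only [Subtype.mk.injEq] at hxy
    exact Subtype.ext (Subtype.ext hxy)
  have : Finite M := by
    apply Nat.finite_of_card_ne_zero
    rw [← Subgroup.card_mul_index (B.subgroupOf M)]
    exact mul_ne_zero Nat.card_pos.ne' h1
  exact Set.toFinite _

namespace SimpleExample

/-- If `t` has finite centralizer in the infinite maximal subgroup `M` containing it then `M` has
a normal subgroup of finite index inverted by `t`. -/
theorem inverted (h : SimpleExample G) (M : Subgroup G) (hM : IsCoatom M) (t : G) (ht : t * t = 1)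
    (htM : t ∈ M) (hfin : ((M ⊓ Subgroup.centralizer {t} : Subgroup G) : Set G).Finite) :
    ∃ B : Subgroup G, B ≤ M ∧ B.relIndex M ≠ 0 ∧ (∀ b ∈ B, t * b * t⁻¹ = b⁻¹) ∧
      ∀ b ∈ B, ∀ h ∈ M, h * b * h⁻¹ ∈ B := by
  apply exists_inverted_LF h.tor M (h.lf M hM.1) t ht
    (fun g hg => M.mul_mem (M.mul_mem htM hg) (M.inv_mem htM))
  apply hfin.subset
  rintro g ⟨h1, h2⟩
  exact ⟨h1, Subgroup.mem_centralizer_singleton_iff.mpr h2.symm⟩

theorem stepA_inverted (h : SimpleExample G) (hCC : ∀ H : Subgroup G, IsCoatom H → CC H)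
    (M : Subgroup G) (hM : IsCoatom M) (t : G) (B : Subgroup G) (hBM : B ≤ M)
    (hidx : B.relIndex M ≠ 0) (hinv : ∀ b ∈ B, t * b * t⁻¹ = b⁻¹)
    (hn : ∀ b ∈ B, ∀ h ∈ M, h * b * h⁻¹ ∈ B) : ∀ M' : Subgroup G, IsCoatom M' → M' ≠ M →
      ((M ⊓ M' : Subgroup G) : Set G).Infinite → False :=
  h.stepA hCC M hM (FN_of_abelian M B hBM hidx (comm_of_inverted B t hinv) hn)

/-- Every involution has an infinite centralizer. -/
theorem infinite_centralizer (h : SimpleExample G) (hCC : ∀ H : Subgroup G, IsCoatom H → CC H)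
    (t : G) (ht : t ≠ 1) (ht2 : t * t = 1) :
    (Subgroup.centralizer {t} : Set G).Infinite := by
  intro hfin
  by_cases hall : ∀ u : G, u ≠ 1 → t * u = u * t → (Subgroup.centralizer {u} : Set G).Finite
  · -- finitely many involutions
    apply h.infinite_involutions t ht ht2 hfin
    have hU : (⋃ u ∈ {u : G | u ∈ Subgroup.centralizer {t} ∧ u ≠ 1},
        (Subgroup.centralizer {u} : Set G)).Finite := by
      apply Set.Finite.biUnion
      · exact hfin.subset (fun u hu => hu.1)
      · intro u hu
        exact hall u hu.2 (Subgroup.mem_centralizer_singleton_iff.mp hu.1).symm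
    apply hU.subset
    rintro s ⟨hs1, hs2⟩
    obtain ⟨u, hu1, -, hsu, htu⟩ := exists_common_involution h.tor s t hs1 hs2 ht2
    refine Set.mem_biUnion (x := u) ⟨?_, hu1⟩ ?_
    · exact Subgroup.mem_centralizer_singleton_iff.mpr htu.symm
    · exact Subgroup.mem_centralizer_singleton_iff.mpr hsu
  · push Not at hall
    obtain ⟨u, hu1, htu, huinf⟩ := hall
    have huinf : (Subgroup.centralizer {u} : Set G).Infinite := huinf
    obtain ⟨M, hM, hle⟩ := exists_coatom h.fg _ (h.centralizer_ne_top hu1)
    have htM : t ∈ M := hle (Subgroup.mem_centralizer_singleton_iff.mpr htu)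
    have hMinf : (M : Set G).Infinite := huinf.mono hle
    obtain ⟨B, hBM, hidx, hinv, hn⟩ := h.inverted M hM t ht2 htM (hfin.subset (fun g hg => hg.2))
    have hA := h.stepA_inverted hCC M hM t B hBM hidx hinv hn
    -- a conjugate of `t` outside `M`
    obtain ⟨g0, hg0⟩ : ∃ g0 : G, g0 * t * g0⁻¹ ∉ M := by
      by_contra hcon
      push Not at hcon
      have hcl : Subgroup.normalClosure {t} ≤ M := by
        rw [Subgroup.normalClosure, Subgroup.closure_le]
        intro x hx
        rw [Group.mem_conjugatesOfSet_iff] at hx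
        obtain ⟨a, ha, hc⟩ := hx
        rw [Set.mem_singleton_iff] at ha
        subst ha
        obtain ⟨g, rfl⟩ := isConj_iff.mp hc
        exact hcon g
      rcases h.simple _ Subgroup.normalClosure_normal with h1 | h1
      · have : t ∈ Subgroup.normalClosure {t} := Subgroup.subset_normalClosure rfl
        rw [h1, Subgroup.mem_bot] at this
        exact ht this
      · exact hM.1 (top_le_iff.mp (h1 ▸ hcl))
    set s := g0 * t * g0⁻¹ with hs
    have hs1 : s ≠ 1 := by
      intro h0
      apply ht
      have : t = g0⁻¹ * s * g0 := by rw [hs]; group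
      rw [this, h0]; group
    have hs2 : s * s = 1 := by
      calc s * s = g0 * (t * t) * g0⁻¹ := by rw [hs]; group
        _ = 1 := by rw [ht2]; group
    have hsfin : (Subgroup.centralizer {s} : Set G).Finite := by
      apply (hfin.image (fun g => g0 * g * g0⁻¹)).subset
      intro g hg
      have hg' := Subgroup.mem_centralizer_singleton_iff.mp hg
      refine ⟨g0⁻¹ * g * g0, ?_, by group⟩
      change g0⁻¹ * g * g0 ∈ Subgroup.centralizer {t}
      rw [Subgroup.mem_centralizer_singleton_iff]
      have : t = g0⁻¹ * s * g0 := by rw [hs]; group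
      rw [this]
      calc g0⁻¹ * g * g0 * (g0⁻¹ * s * g0) = g0⁻¹ * (g * s) * g0 := by group
        _ = g0⁻¹ * (s * g) * g0 := by rw [hg']
        _ = g0⁻¹ * s * g0 * (g0⁻¹ * g * g0) := by group
    -- the common involutions
    have hex : ∀ m : M, ∃ v : G, v ≠ 1 ∧ s * v = v * s ∧
        ((m : G)⁻¹ * t * m) * v = v * ((m : G)⁻¹ * t * m) := by
      intro m
      have hc2 : ((m : G)⁻¹ * t * m) * ((m : G)⁻¹ * t * m) = 1 := by
        calc ((m : G)⁻¹ * t * m) * ((m : G)⁻¹ * t * m) = (m : G)⁻¹ * (t * t) * m := by group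
          _ = 1 := by rw [ht2]; group
      obtain ⟨v, hv1, -, hsv, htv⟩ := exists_common_involution h.tor s _ hs1 hs2 hc2
      exact ⟨v, hv1, hsv, htv⟩
    choose v hv1 hsv htv using hex
    have hMinf' : Infinite M := hMinf.to_subtype
    have hsfin' : Finite (Subgroup.centralizer {s}) := hsfin.to_subtype
    obtain ⟨⟨w, hw⟩, hwinf⟩ := Finite.exists_infinite_fiber (fun m : M =>
      (⟨v m, Subgroup.mem_centralizer_singleton_iff.mpr (hsv m).symm⟩ :
        Subgroup.centralizer {s}))
    rw [Set.infinite_coe_iff] at hwinf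
    have hw1 : w ≠ 1 := by
      obtain ⟨m, hm⟩ := hwinf.nonempty
      have : v m = w := congrArg Subtype.val hm
      rw [← this]; exact hv1 m
    -- infinitely many conjugates of `t` commute with `w`
    have hMw : ((M ⊓ Subgroup.centralizer {w} : Subgroup G) : Set G).Infinite := by
      intro hfw
      -- the map m ↦ m⁻¹ t m has finite fibres
      apply hwinf
      have hpre : ((fun m : M => (m : G)⁻¹ * t * m) ⁻¹'
          ((M ⊓ Subgroup.centralizer {w} : Subgroup G) : Set G)).Finite := by
        apply Set.Finite.preimage' hfw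
        intro b _
        by_cases hb : ∃ m0 : M, (m0 : G)⁻¹ * t * m0 = b
        · obtain ⟨m0, rfl⟩ := hb
          have h1 : ((fun c : M => (c : G) * (m0 : G)⁻¹) ⁻¹'
              (Subgroup.centralizer {t} : Set G)).Finite := by
            apply hfin.preimage
            intro x _ y _ hxy
            exact Subtype.ext (mul_right_cancel hxy)
          apply h1.subset
          intro m hm
          have hm' : (m : G)⁻¹ * t * m = (m0 : G)⁻¹ * t * m0 := hm
          change (m : G) * (m0 : G)⁻¹ ∈ Subgroup.centralizer {t}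
          rw [Subgroup.mem_centralizer_singleton_iff]
          calc (m : G) * (m0 : G)⁻¹ * t = m * ((m0 : G)⁻¹ * t * m0) * (m0 : G)⁻¹ := by group
            _ = m * ((m : G)⁻¹ * t * m) * (m0 : G)⁻¹ := by rw [hm']
            _ = t * ((m : G) * (m0 : G)⁻¹) := by group
        · have : (fun m : M => (m : G)⁻¹ * t * m) ⁻¹' {b} = ∅ := by
            ext g
            simp only [Set.mem_preimage, Set.mem_singleton_iff, Set.mem_empty_iff_false,
              iff_false]
            exact fun hg => hb ⟨g, hg⟩
          rw [this]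
          exact Set.finite_empty
      apply hpre.subset
      intro m hm
      have hvm : v m = w := congrArg Subtype.val hm
      refine ⟨M.mul_mem (M.mul_mem (M.inv_mem m.2) htM) m.2, ?_⟩
      have h1 := htv m
      rw [hvm] at h1
      exact Subgroup.mem_centralizer_singleton_iff.mpr h1
    obtain ⟨M2, hM2, hle2⟩ := exists_coatom h.fg _ (h.centralizer_ne_top hw1)
    have hM2M : M2 = M := by
      by_contra hne
      exact hA M2 hM2 hne (hMw.mono (fun g hg => ⟨hg.1, hle2 hg.2⟩))
    apply hg0
    rw [← hM2M]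
    apply hle2
    exact Subgroup.mem_centralizer_singleton_iff.mpr
      (Subgroup.mem_centralizer_singleton_iff.mp hw).symm

end SimpleExample

end MP63f86b
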