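import Pool.Agent.Lib.MP_63f86b_al.Simple

/-!
# Involutions with few fixed points invert a subgroup of bounded index
-/

universe u

open scoped Pointwise

namespace MP63f86b

/-- The constant bounding the torsion. -/
def kbnd (c : ℕ) : ℕ := (c * c) ^ (2 ^ c)

/-- The bound for the index of the inverted subgroup. -/
def fbnd (c : ℕ) : ℕ := c * (kbnd c * kbnd c ^ kbnd c)

theorem exists_inverted {P : Type u} [Group P] [Finite P] (hP : IsPGroup 2 P) (c : ℕ)
    (F : Subgroup P) [hF : F.Normal] (t : P) (ht : t * t = 1)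
    (hc : Nat.card (fixSet F t) ≤ c) :
    ∃ B : Subgroup P, B ≤ F ∧ (∀ b ∈ B, t * b * t⁻¹ = b⁻¹) ∧
      Nat.card F ≤ fbnd c * Nat.card B := by
  have hfact : Fact (Nat.Prime 2) := ⟨Nat.prime_two⟩
  have hcpos : 0 < c := lt_of_lt_of_le Nat.card_pos hc
  obtain ⟨A, hAn, hAF, hA, hCA⟩ := exists_selfcent hP F
  let _ : CommGroup A := { (inferInstance : Group A) with
    mul_comm := fun a b => Subtype.ext (hA a a.2 b b.2) }
  have hconj : ∀ a : A, t * a * t⁻¹ ∈ A := fun a => hAn.conj_mem a a.2 t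
  let φ : A →* A :=
    { toFun := fun a => a * ⟨t * a * t⁻¹, hconj a⟩
      map_one' := by
        apply Subtype.ext; simp
      map_mul' := by
        intro a b
        have h1 : (⟨t * (a * b : A) * t⁻¹, hconj (a * b)⟩ : A)
            = ⟨t * a * t⁻¹, hconj a⟩ * ⟨t * b * t⁻¹, hconj b⟩ := by
          apply Subtype.ext
          simp only [Subgroup.coe_mul]
          group
        rw [h1]
        exact mul_mul_mul_comm a b _ _ }
  have hφfix : ∀ a : A, ((φ a : A) : P) ∈ fixSet F t := by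
    intro a
    rw [mem_fixSet]
    refine ⟨hAF (φ a).2, ?_⟩
    have e1 : ((φ a : A) : P) = a * (t * a * t⁻¹) := rfl
    have e2 : (a : P) * (t * a * t⁻¹) = (t * a * t⁻¹) * a := hA _ a.2 _ (hconj a)
    have e5 : t⁻¹ = t := inv_eq_of_mul_eq_one_left ht
    have e4 : t * t * (a : P) * t⁻¹ * t⁻¹ = a := by
      rw [e5, ht, one_mul, mul_assoc, ht, mul_one]
    rw [e1]
    calc t * (a * (t * a * t⁻¹)) = t * ((t * a * t⁻¹) * a) := by rw [e2]
      _ = (t * t * (a : P) * t⁻¹ * t⁻¹) * (t * a) := by group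
      _ = a * (t * a) := by rw [e4]
      _ = a * (t * a * t⁻¹) * t := by group
  have hr : Nat.card φ.range ≤ c := by
    refine le_trans ?_ hc
    apply Nat.card_le_card_of_injective
      (fun y : φ.range => (⟨(y.1 : P), by
        obtain ⟨_, a, rfl⟩ := y
        exact hφfix a⟩ : fixSet F t))
    intro y z hyz
    simp only [Subtype.mk.injEq] at hyz
    exact Subtype.ext (Subtype.ext hyz)
  -- elements of the range have order dividing `2^c`
  have hrexp : ∀ a : A, (φ a) ^ (2 ^ c) = 1 := by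
    intro a
    have hAp : IsPGroup 2 A := hP.to_subgroup A
    have hRp : IsPGroup 2 φ.range := hAp.to_subgroup φ.range
    obtain ⟨e, he⟩ := IsPGroup.iff_card.mp hRp
    have hec : e ≤ c := by
      have h1 : e < 2 ^ e := Nat.lt_two_pow_self
      omega
    have h2 : (⟨φ a, a, rfl⟩ : φ.range) ^ (Nat.card φ.range) = 1 := pow_card_eq_one'
    rw [he] at h2
    have h3 : (φ a) ^ (2 ^ e) = 1 := congrArg Subtype.val h2
    have h4 : 2 ^ c = 2 ^ e * 2 ^ (c - e) := by rw [← pow_add]; congr 1; omega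
    rw [h4, pow_mul, h3, one_pow]
  -- 2-torsion
  have hinv2 : ∀ a : A, a ^ 2 = 1 → φ a = 1 → (a : P) ∈ fixSet F t := by
    intro a ha hφa
    rw [mem_fixSet]
    refine ⟨hAF a.2, ?_⟩
    have e1 : (a : P) * (t * a * t⁻¹) = 1 := congrArg Subtype.val hφa
    have e2 : (a : P) * a = 1 := by
      have h := congrArg Subtype.val ha
      simpa [pow_two] using h
    have e3 : t * (a : P) * t⁻¹ = a := by
      have : (a : P) * (t * a * t⁻¹) = a * a := by rw [e1, e2]
      exact mul_left_cancel this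
    calc t * (a : P) = (t * a * t⁻¹) * t := by group
      _ = a * t := by rw [e3]
  have htor2 : Nat.card {a : A // a ^ 2 = 1} ≤ c * c := by
    let T : Subgroup A := (powMonoidHom 2 : A →* A).ker
    let χ : T →* A := φ.comp T.subtype
    have h1 : Nat.card χ.ker * Nat.card χ.range = Nat.card T := by
      rw [← Subgroup.index_ker, Subgroup.card_mul_index]
    have h2 : Nat.card χ.range ≤ c := by
      refine le_trans ?_ hr
      apply Nat.card_le_card_of_injective (fun y : χ.range => (⟨y.1, by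
        obtain ⟨_, x, rfl⟩ := y
        exact ⟨x.1, rfl⟩⟩ : φ.range))
      intro y z hyz
      simp only [Subtype.mk.injEq] at hyz
      exact Subtype.ext hyz
    have h3 : Nat.card χ.ker ≤ c := by
      refine le_trans ?_ hc
      apply Nat.card_le_card_of_injective (fun y : χ.ker => (⟨(y.1.1 : P), by
        obtain ⟨⟨a, ha⟩, hk⟩ := y
        apply hinv2 a
        · exact MonoidHom.mem_ker.mp ha
        · exact MonoidHom.mem_ker.mp hk⟩ : fixSet F t))
      intro y z hyz
      simp only [Subtype.mk.injEq] at hyz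
      exact Subtype.ext (Subtype.ext (Subtype.ext hyz))
    have h4 : Nat.card {a : A // a ^ 2 = 1} = Nat.card T := by
      apply Nat.card_congr
      exact Equiv.subtypeEquivRight (fun a => by simp [T, MonoidHom.mem_ker])
    rw [h4, ← h1]
    exact Nat.mul_le_mul h3 h2
  -- the power subgroup
  let ρ : A →* A := powMonoidHom (2 ^ c)
  have hρ : Nat.card ρ.ker * Nat.card ρ.range = Nat.card A := by
    rw [← Subgroup.index_ker, Subgroup.card_mul_index]
  have hρker : Nat.card ρ.ker ≤ kbnd c := by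
    have h1 : Nat.card ρ.ker ≤ (c * c) ^ c := by
      apply card_le_of_torsion (c * c) c ρ.ker
      · intro a
        apply Subtype.ext
        exact MonoidHom.mem_ker.mp a.2
      · refine le_trans ?_ htor2
        apply Nat.card_le_card_of_injective
          (fun y : {a : ρ.ker // a ^ 2 = 1} => (⟨y.1.1, congrArg Subtype.val y.2⟩ :
            {a : A // a ^ 2 = 1}))
        intro y z hyz
        simp only [Subtype.mk.injEq] at hyz
        exact Subtype.ext (Subtype.ext hyz)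
    refine h1.trans ?_
    exact Nat.pow_le_pow_right (Nat.mul_pos hcpos hcpos) (Nat.lt_two_pow_self).le
  let B : Subgroup P := ρ.range.map A.subtype
  have hBmem : ∀ b ∈ B, ∃ a : A, (b : P) = ((a ^ (2 ^ c) : A) : P) := by
    rintro _ ⟨_, ⟨a, rfl⟩, rfl⟩
    exact ⟨a, rfl⟩
  have hmemB : ∀ a : A, ((a ^ (2 ^ c) : A) : P) ∈ B := fun a => ⟨_, ⟨a, rfl⟩, rfl⟩
  have hBcard : Nat.card B = Nat.card ρ.range := by
    have e := (ρ.range.equivMapOfInjective A.subtype A.subtype_injective).toEquiv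
    exact (Nat.card_congr e).symm
  have hBA : B ≤ A := by
    intro b hb
    obtain ⟨a, rfl⟩ := hBmem b hb
    exact (a ^ (2 ^ c)).2
  have hBinv : ∀ b ∈ B, t * b * t⁻¹ = b⁻¹ := by
    intro b hb
    obtain ⟨a, rfl⟩ := hBmem b hb
    have h1 : φ (a ^ (2 ^ c)) = 1 := by rw [map_pow]; exact hrexp a
    have h2 : ((a ^ (2 ^ c) : A) : P) * (t * ((a ^ (2 ^ c) : A) : P) * t⁻¹) = 1 :=
      congrArg Subtype.val h1
    exact (inv_eq_of_mul_eq_one_right h2).symm
  have hBn : ∀ b ∈ B, ∀ g : P, g * b * g⁻¹ ∈ B := by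
    intro b hb g
    obtain ⟨a, rfl⟩ := hBmem b hb
    have h1 := hmemB ⟨g * a * g⁻¹, hAn.conj_mem a a.2 g⟩
    have h2 : (((⟨g * a * g⁻¹, hAn.conj_mem a a.2 g⟩ : A) ^ (2 ^ c) : A) : P) =
        g * ((a ^ (2 ^ c) : A) : P) * g⁻¹ := by
      rw [SubmonoidClass.coe_pow, SubmonoidClass.coe_pow]
      exact conj_pow
    rwa [h2] at h1
  -- the centralizer of `B`
  let C : Subgroup P := F ⊓ Subgroup.centralizer B
  have hγ : ∀ f ∈ F, f⁻¹ * (t * f * t⁻¹) ∈ C := by
    intro f hf
    refine ⟨F.mul_mem (F.inv_mem hf) (hF.conj_mem f hf t), ?_⟩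
    have h0 : f⁻¹ * (t * f * t⁻¹) ∈ Subgroup.centralizer (B : Set P) := by
      rw [Subgroup.mem_centralizer_iff]
      intro b hb
      have h1 := hBinv b hb
      have h2 := hBinv (f * b * f⁻¹) (hBn b hb f)
      have hti : t⁻¹ = t := inv_eq_of_mul_eq_one_left ht
      -- `t f t⁻¹` and `f` act in the same way on `b`
      have h3 : (t * f * t⁻¹) * b * (t * f * t⁻¹)⁻¹ = f * b * f⁻¹ := by
        have h4 : t⁻¹ * b * t = b⁻¹ := by
          rw [hti] at h1 ⊢
          exact h1
        have h5 := hBinv (f * b⁻¹ * f⁻¹) (hBn b⁻¹ (B.inv_mem hb) f)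
        calc (t * f * t⁻¹) * b * (t * f * t⁻¹)⁻¹
            = t * (f * (t⁻¹ * b * t) * f⁻¹) * t⁻¹ := by group
          _ = t * (f * b⁻¹ * f⁻¹) * t⁻¹ := by rw [h4]
          _ = (f * b⁻¹ * f⁻¹)⁻¹ := h5
          _ = f * b * f⁻¹ := by group
      calc b * (f⁻¹ * (t * f * t⁻¹))
          = f⁻¹ * (f * b * f⁻¹) * (t * f * t⁻¹) := by group
        _ = f⁻¹ * ((t * f * t⁻¹) * b * (t * f * t⁻¹)⁻¹) * (t * f * t⁻¹) := by rw [h3]
        _ = f⁻¹ * (t * f * t⁻¹) * b := by group
    exact h0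
  have hFC : Nat.card F ≤ c * Nat.card C := by
    classical
    let γ : F → C := fun f => ⟨f⁻¹ * (t * f * t⁻¹), hγ f f.2⟩
    let r : C → F := fun v => if h : ∃ f, γ f = v then h.choose else 1
    have hr' : ∀ f : F, γ (r (γ f)) = γ f := by
      intro f
      have h : ∃ f', γ f' = γ f := ⟨f, rfl⟩
      have : r (γ f) = h.choose := dif_pos h
      rw [this]
      exact h.choose_spec
    have hfix : ∀ f : F, ((f * (r (γ f))⁻¹ : F) : P) ∈ fixSet F t := by
      intro f
      rw [mem_fixSet]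
      refine ⟨(f * (r (γ f))⁻¹ : F).2, ?_⟩
      have h1 : ((r (γ f) : F) : P)⁻¹ * (t * (r (γ f) : F) * t⁻¹) = (f : P)⁻¹ * (t * f * t⁻¹) :=
        congrArg Subtype.val (hr' f)
      have h2 : (f : P) * ((r (γ f) : F) : P)⁻¹ =
          (t * f * t⁻¹) * (t * (r (γ f) : F) * t⁻¹)⁻¹ := by
        calc (f : P) * ((r (γ f) : F) : P)⁻¹
            = f * (((r (γ f) : F) : P)⁻¹ * (t * (r (γ f) : F) * t⁻¹)) *
              (t * (r (γ f) : F) * t⁻¹)⁻¹ := by group
          _ = f * ((f : P)⁻¹ * (t * f * t⁻¹)) * (t * (r (γ f) : F) * t⁻¹)⁻¹ := by rw [h1]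
          _ = (t * f * t⁻¹) * (t * (r (γ f) : F) * t⁻¹)⁻¹ := by group
      have h3 : (f : P) * ((r (γ f) : F) : P)⁻¹ = t * (f * ((r (γ f) : F) : P)⁻¹) * t⁻¹ := by
        rw [h2]; rw [← h2]; nth_rewrite 1 [h2]; group
      have h4 : ((f * (r (γ f))⁻¹ : F) : P) = (f : P) * ((r (γ f) : F) : P)⁻¹ := rfl
      rw [h4]
      calc t * ((f : P) * ((r (γ f) : F) : P)⁻¹)
          = (t * (f * ((r (γ f) : F) : P)⁻¹) * t⁻¹) * t := by group
        _ = (f : P) * ((r (γ f) : F) : P)⁻¹ * t := by rw [← h3]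
    have hle : Nat.card F ≤ Nat.card (fixSet F t × C) := by
      apply Nat.card_le_card_of_injective
        (fun f : F => ((⟨_, hfix f⟩, γ f) : fixSet F t × C))
      intro f g hfg
      simp only [Prod.mk.injEq, Subtype.mk.injEq] at hfg
      obtain ⟨h1, h2⟩ := hfg
      have h3 : f * (r (γ f))⁻¹ = g * (r (γ g))⁻¹ := Subtype.ext h1
      rw [h2] at h3
      exact mul_right_cancel h3
    rw [Nat.card_prod] at hle
    exact hle.trans (Nat.mul_le_mul_right _ hc)
  -- the action of `C` on `A`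
  let ψ : C →* MulAut A := (MulAut.conjNormal (H := A)).comp C.subtype
  have hker : Nat.card ψ.ker ≤ Nat.card A := by
    apply Nat.card_le_card_of_injective
      (fun y : ψ.ker => (⟨(y.1 : P), by
        apply hCA
        refine Subgroup.mem_inf.mpr ⟨y.1.2.1, ?_⟩
        rw [Subgroup.mem_centralizer_iff]
        intro a ha
        have h1 : ψ y.1 = 1 := MonoidHom.mem_ker.mp y.2
        have h2 : ((ψ y.1 ⟨a, ha⟩ : A) : P) = a := by rw [h1]; rfl
        have h3 : ((ψ y.1 ⟨a, ha⟩ : A) : P) = (y.1 : P) * a * (y.1 : P)⁻¹ := rfl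
        rw [h3] at h2
        calc a * (y.1 : P) = ((y.1 : P) * a * (y.1 : P)⁻¹) * y.1 := by rw [h2]
          _ = y.1 * a := by group⟩ : A))
    intro y z hyz
    simp only [Subtype.mk.injEq] at hyz
    exact Subtype.ext (Subtype.ext hyz)
  have hψB : ∀ α ∈ ψ.range, ∀ a : A, α (a ^ (2 ^ c)) = a ^ (2 ^ c) := by
    rintro _ ⟨y, rfl⟩ a
    apply Subtype.ext
    have h3 : ((ψ y (a ^ (2 ^ c)) : A) : P) =
      (y : P) * ((a ^ (2 ^ c) : A) : P) * (y : P)⁻¹ := rfl
    rw [h3]
    have h4 := (Subgroup.mem_centralizer_iff.mp y.2.2) _ (hmemB a)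
    rw [← h4]; group
  have hidx : Nat.card (A ⧸ ρ.range) = Nat.card ρ.ker := by
    have h1 : Nat.card ρ.range * ρ.range.index = Nat.card A := Subgroup.card_mul_index _
    rw [← hρ, mul_comm] at h1
    exact Nat.eq_of_mul_eq_mul_right Nat.card_pos h1
  have hrange : Nat.card ψ.range ≤ kbnd c ^ kbnd c := by
    have h1 : Nat.card ψ.range ≤ Nat.card ((A ⧸ ρ.range) → ρ.ker) := by
      apply Nat.card_le_card_of_injective (fun α : ψ.range =>
        (fun x : A ⧸ ρ.range => (⟨α.1 x.out * (x.out)⁻¹, by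
          rw [MonoidHom.mem_ker]
          change (α.1 x.out * (x.out)⁻¹) ^ (2 ^ c) = 1
          rw [mul_pow, inv_pow, ← map_pow, hψB α.1 α.2, mul_inv_cancel]⟩ : ρ.ker)))
      intro α β hαβ
      apply Subtype.ext
      apply MulEquiv.ext
      intro a
      have h2 := congrFun hαβ (QuotientGroup.mk a)
      simp only [Subtype.mk.injEq] at h2
      have h3 := mul_right_cancel h2
      obtain ⟨⟨_, b, rfl⟩, hb⟩ := QuotientGroup.mk_out_eq_mul ρ.range a
      have h4 : a = (QuotientGroup.mk a : A ⧸ ρ.range).out * ((b⁻¹) ^ (2 ^ c)) := by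
        rw [hb]
        change a = a * b ^ (2 ^ c) * (b⁻¹) ^ (2 ^ c)
        rw [inv_pow, mul_assoc, mul_inv_cancel, mul_one]
      rw [h4, map_mul, map_mul, hψB α.1 α.2, hψB β.1 β.2, h3]
    refine h1.trans ?_
    rw [Nat.card_fun, hidx]
    calc Nat.card ρ.ker ^ Nat.card ρ.ker ≤ kbnd c ^ Nat.card ρ.ker :=
          Nat.pow_le_pow_left hρker _
      _ ≤ kbnd c ^ kbnd c := Nat.pow_le_pow_right (lt_of_lt_of_le Nat.card_pos hρker) hρker
  have hCcard : Nat.card ψ.ker * Nat.card ψ.range = Nat.card C := by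
    rw [← Subgroup.index_ker, Subgroup.card_mul_index]
  refine ⟨B, hBA.trans hAF, hBinv, ?_⟩
  have h1 : Nat.card A ≤ kbnd c * Nat.card B := by
    rw [← hρ, hBcard]
    exact Nat.mul_le_mul_right _ hρker
  calc Nat.card F ≤ c * Nat.card C := hFC
    _ = c * (Nat.card ψ.ker * Nat.card ψ.range) := by rw [hCcard]
    _ ≤ c * ((kbnd c * Nat.card B) * kbnd c ^ kbnd c) :=
        Nat.mul_le_mul_left _ (Nat.mul_le_mul (hker.trans h1) hrange)
    _ = fbnd c * Nat.card B := by unfold fbnd; ring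

end MP63f86b
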