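import Pool.Agent.Lib.MP_63f86b_al.Inverted

/-!
# Locally finite 2-groups with an involution having finitely many fixed points
-/

universe u

open scoped Pointwise

namespace MP63f86b

variable {G : Type u} [Group G]

/-- The finite stage. -/
theorem exists_stage (tor : ∀ g : G, ∃ k : ℕ, g ^ (2 ^ k) = 1) (H : Subgroup G) (hLF : LF H)
    (t : G) (ht : t * t = 1) (hx : ∀ h ∈ H, t * h * t⁻¹ ∈ H) (c : ℕ)
    (hfin : {h | h ∈ H ∧ t * h = h * t}.Finite)
    (hc : Nat.card {h // h ∈ H ∧ t * h = h * t} ≤ c) (S : Set G) (hS : S.Finite) (hSH : S ⊆ H) :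
    ∃ F B : Subgroup G, S ⊆ F ∧ F ≤ H ∧ (F : Set G).Finite ∧ B ≤ F ∧
      (∀ b ∈ B, t * b * t⁻¹ = b⁻¹) ∧ Nat.card F ≤ fbnd c * Nat.card B := by
  let S' : Set G := S ∪ (fun g => t * g * t⁻¹) '' S
  have hS'fin : S'.Finite := hS.union (hS.image _)
  have hS'H : S' ⊆ H := by
    rintro g (hg | ⟨g, hg, rfl⟩)
    · exact hSH hg
    · exact hx g (hSH hg)
  have hti : t⁻¹ = t := inv_eq_of_mul_eq_one_left ht
  have htt : ∀ g : G, t * (t * g * t⁻¹) * t⁻¹ = g := by
    intro g
    calc t * (t * g * t⁻¹) * t⁻¹ = (t * t) * g * (t * t)⁻¹ := by group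
      _ = g := by rw [ht]; group
  let F : Subgroup G := Subgroup.closure S'
  have hFH : F ≤ H := (Subgroup.closure_le H).mpr hS'H
  have hFfin : (F : Set G).Finite := hLF S' hS'fin hS'H
  have hFx : ∀ h ∈ F, t * h * t⁻¹ ∈ F := by
    intro h hh
    have h1 : F ≤ F.comap (MulAut.conj t).toMonoidHom := by
      refine (Subgroup.closure_le _).mpr ?_
      rintro g (hg | ⟨g, hg, rfl⟩)
      · exact Subgroup.subset_closure (Or.inr ⟨g, hg, rfl⟩)
      · change t * (t * g * t⁻¹) * t⁻¹ ∈ F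
        rw [htt]
        exact Subgroup.subset_closure (Or.inl hg)
    exact h1 hh
  have hnorm : Subgroup.zpowers t ≤ Subgroup.normalizer (F : Set G) := by
    rw [Subgroup.zpowers_le, Subgroup.mem_normalizer_iff]
    intro h
    refine ⟨hFx h, fun hh => ?_⟩
    have h1 := hFx _ hh
    rwa [htt] at h1
  let P : Subgroup G := Subgroup.zpowers t ⊔ F
  have hFP : F ≤ P := le_sup_right
  have hPset : (P : Set G) = (Subgroup.zpowers t : Set G) * (F : Set G) :=
    Subgroup.coe_mul_of_left_le_normalizer_right _ _ hnorm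
  have htfin : (Subgroup.zpowers t : Set G).Finite := by
    obtain ⟨k, hk⟩ := tor t
    have : IsOfFinOrder t := isOfFinOrder_iff_pow_eq_one.mpr ⟨2 ^ k, by positivity, hk⟩
    exact this.finite_zpowers
  have hPfin : (P : Set G).Finite := by rw [hPset]; exact htfin.mul hFfin
  have : Finite P := hPfin.to_subtype
  let F' : Subgroup P := F.subgroupOf P
  have hF'n : F'.Normal := by
    rw [Subgroup.normal_subgroupOf_iff_le_normalizer hFP]
    exact sup_le hnorm Subgroup.le_normalizer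
  have htP : t ∈ P := (le_sup_left : Subgroup.zpowers t ≤ P) (Subgroup.mem_zpowers t)
  have hfin' : Finite {h // h ∈ H ∧ t * h = h * t} := hfin.to_subtype
  have hcard : Nat.card (fixSet F' (⟨t, htP⟩ : P)) ≤ c := by
    refine le_trans ?_ hc
    apply Nat.card_le_card_of_injective
      (fun f : fixSet F' (⟨t, htP⟩ : P) => (⟨(f.1 : G), by
        have h1 := mem_fixSet.mp f.2
        refine ⟨hFH (Subgroup.mem_subgroupOf.mp h1.1), ?_⟩
        exact congrArg Subtype.val h1.2⟩ : {h // h ∈ H ∧ t * h = h * t}))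
    intro a b hab
    simp only [Subtype.mk.injEq] at hab
    exact Subtype.ext (Subtype.ext hab)
  have hP2 : IsPGroup 2 P := fun g => by
    obtain ⟨k, hk⟩ := tor g
    exact ⟨k, by apply Subtype.ext; simpa using hk⟩
  obtain ⟨B', hB'F, hB'inv, hB'card⟩ := exists_inverted hP2 c F' ⟨t, htP⟩
    (Subtype.ext ht) hcard
  refine ⟨F, B'.map P.subtype, fun g hg => Subgroup.subset_closure (Or.inl hg), hFH, hFfin,
    ?_, ?_, ?_⟩
  · rintro _ ⟨b, hb, rfl⟩
    exact Subgroup.mem_subgroupOf.mp (hB'F hb)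
  · rintro _ ⟨b, hb, rfl⟩
    exact congrArg Subtype.val (hB'inv b hb)
  · have hFF' : Nat.card F' = Nat.card F :=
      Nat.card_congr (Subgroup.subgroupOfEquivOfLe hFP).toEquiv
    have hBB' : Nat.card (B'.map P.subtype) = Nat.card B' :=
      (Nat.card_congr (B'.equivMapOfInjective P.subtype P.subtype_injective).toEquiv).symm
    rw [← hFF', hBB']
    exact hB'card

/-- A locally finite 2-group `H` with an involution `t` normalising it and having finitely many
fixed points in `H` has a normal subgroup of finite index which is inverted by `t`. -/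
theorem exists_inverted_LF (tor : ∀ g : G, ∃ k : ℕ, g ^ (2 ^ k) = 1) (H : Subgroup G)
    (hLF : LF H) (t : G) (ht : t * t = 1) (hx : ∀ h ∈ H, t * h * t⁻¹ ∈ H)
    (hfin : {h | h ∈ H ∧ t * h = h * t}.Finite) :
    ∃ B : Subgroup G, B ≤ H ∧ B.relIndex H ≠ 0 ∧ (∀ b ∈ B, t * b * t⁻¹ = b⁻¹) ∧
      ∀ b ∈ B, ∀ h ∈ H, h * b * h⁻¹ ∈ B := by
  classical
  set c := Nat.card {h // h ∈ H ∧ t * h = h * t} with hc
  have hstage : ∀ S : Finset H, ∃ F B : Subgroup G, (Subtype.val '' (S : Set H)) ⊆ F ∧ F ≤ H ∧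
      (F : Set G).Finite ∧ B ≤ F ∧ (∀ b ∈ B, t * b * t⁻¹ = b⁻¹) ∧
      Nat.card F ≤ fbnd c * Nat.card B := by
    intro S
    apply exists_stage tor H hLF t ht hx c hfin le_rfl
    · exact S.finite_toSet.image _
    · rintro _ ⟨y, _, rfl⟩; exact y.2
  choose F B hSF hFH hFfin hBF hBinv hBcard using hstage
  let U : Ultrafilter (Finset H) := Ultrafilter.of Filter.atTop
  have hU : (U : Filter (Finset H)) ≤ Filter.atTop := Ultrafilter.of_le _
  let B0 : Subgroup G :=
    { carrier := {g | ∀ᶠ S in (U : Filter (Finset H)), g ∈ B S}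
      one_mem' := Filter.Eventually.of_forall (fun S => (B S).one_mem)
      mul_mem' := fun {a b} ha hb => (ha.and hb).mono (fun S hS => (B S).mul_mem hS.1 hS.2)
      inv_mem' := fun {a} ha => ha.mono (fun S hS => (B S).inv_mem hS) }
  have hB0 : ∀ g, g ∈ B0 ↔ ∀ᶠ S in (U : Filter (Finset H)), g ∈ B S := fun g => Iff.rfl
  have hB0H : B0 ≤ H := by
    intro g hg
    obtain ⟨S, hS⟩ := ((hB0 g).mp hg).exists
    exact hFH S (hBF S hS)
  have hB0inv : ∀ b ∈ B0, t * b * t⁻¹ = b⁻¹ := by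
    intro g hg
    obtain ⟨S, hS⟩ := ((hB0 g).mp hg).exists
    exact hBinv S g hS
  have hidx : (B0.subgroupOf H).index ≠ 0 := by
    intro h0
    have hinf : Infinite (H ⧸ B0.subgroupOf H) := by
      by_contra hcon
      rw [not_infinite_iff_finite] at hcon
      exact Nat.card_pos.ne' h0
    obtain ⟨T, hT⟩ := Infinite.exists_subset_card_eq (H ⧸ B0.subgroupOf H) (fbnd c + 1)
    -- representatives
    let R : Finset H := T.image Quotient.out
    have hev : ∀ᶠ S in (U : Filter (Finset H)), R ⊆ S :=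
      hU (Filter.eventually_ge_atTop R)
    -- pigeonhole
    have hpig : ∀ S : Finset H, R ⊆ S → ∃ p ∈ T ×ˢ T, p.1 ≠ p.2 ∧
        (((p.1.out : H) : G)⁻¹ * ((p.2.out : H) : G)) ∈ B S := by
      intro S hRS
      have hFfin' : Finite (F S) := (hFfin S).to_subtype
      have hidxS : ((B S).subgroupOf (F S)).index ≤ fbnd c := by
        have h1 := Subgroup.card_mul_index ((B S).subgroupOf (F S))
        have h2 : Nat.card ((B S).subgroupOf (F S)) = Nat.card (B S) :=
          Nat.card_congr (Subgroup.subgroupOfEquivOfLe (hBF S)).toEquiv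
        rw [h2] at h1
        have h3 := hBcard S
        have hBfin : Finite (B S) := ((hFfin S).subset (hBF S)).to_subtype
        have h4 : 0 < Nat.card (B S) := Nat.card_pos
        rw [← h1, mul_comm (fbnd c)] at h3
        exact Nat.le_of_mul_le_mul_left h3 h4
      have hmem : ∀ x ∈ T, ((x.out : H) : G) ∈ F S := by
        intro x hx
        apply hSF S
        exact ⟨x.out, hRS (Finset.mem_image_of_mem _ hx), rfl⟩
      let f : T → (F S) ⧸ ((B S).subgroupOf (F S)) := fun x =>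
        QuotientGroup.mk ⟨((x.1.out : H) : G), hmem x.1 x.2⟩
      have hnotinj : ¬ Function.Injective f := by
        intro hinj
        have h1 := Nat.card_le_card_of_injective f hinj
        have h2 : Nat.card T = fbnd c + 1 := by simp [hT]
        have h3 : Nat.card ((F S) ⧸ ((B S).subgroupOf (F S))) ≤ fbnd c := hidxS
        omega
      rw [Function.not_injective_iff] at hnotinj
      obtain ⟨x, y, hxy, hne⟩ := hnotinj
      refine ⟨(x.1, y.1), Finset.mem_product.mpr ⟨x.2, y.2⟩, fun h => hne (Subtype.ext h), ?_⟩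
      have h1 := (QuotientGroup.eq).mp hxy
      exact Subgroup.mem_subgroupOf.mp h1
    have hev2 : ∀ᶠ S in (U : Filter (Finset H)), ∃ p ∈ T ×ˢ T, p.1 ≠ p.2 ∧
        (((p.1.out : H) : G)⁻¹ * ((p.2.out : H) : G)) ∈ B S := hev.mono hpig
    have hev3 : (⋃ p ∈ ((T ×ˢ T : Finset _) : Set ((H ⧸ B0.subgroupOf H) × _)),
        {S : Finset H | p.1 ≠ p.2 ∧
          (((p.1.out : H) : G)⁻¹ * ((p.2.out : H) : G)) ∈ B S}) ∈ U := by
      apply Filter.mem_of_superset hev2
      intro S hS
      obtain ⟨p, hp, h1⟩ := hS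
      exact Set.mem_biUnion (Finset.mem_coe.mpr hp) h1
    rw [Ultrafilter.finite_biUnion_mem_iff (Finset.finite_toSet _)] at hev3
    obtain ⟨p, _, hp⟩ := hev3
    have hne : p.1 ≠ p.2 := by
      obtain ⟨S, hS⟩ := Ultrafilter.nonempty_of_mem hp
      exact hS.1
    have hmemB : ((p.1.out : H) : G)⁻¹ * ((p.2.out : H) : G) ∈ B0 := by
      rw [hB0]
      exact Filter.mem_of_superset hp (fun S hS => hS.2)
    apply hne
    have h1 : (QuotientGroup.mk p.1.out : H ⧸ B0.subgroupOf H) = QuotientGroup.mk p.2.out := by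
      rw [QuotientGroup.eq, Subgroup.mem_subgroupOf]
      exact hmemB
    rwa [QuotientGroup.out_eq', QuotientGroup.out_eq'] at h1
  -- pass to the core
  have hfi : (B0.subgroupOf H).FiniteIndex := ⟨hidx⟩
  let N : Subgroup H := (B0.subgroupOf H).normalCore
  have hNfi : N.FiniteIndex := inferInstance
  have hNB0 : ∀ n ∈ N, (n : G) ∈ B0 := fun n hn =>
    Subgroup.mem_subgroupOf.mp (Subgroup.normalCore_le _ hn)
  refine ⟨N.map H.subtype, ?_, ?_, ?_, ?_⟩
  · rintro _ ⟨n, _, rfl⟩; exact n.2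
  · rw [Subgroup.relIndex, Subgroup.subgroupOf,
      Subgroup.comap_map_eq_self_of_injective H.subtype_injective]
    exact hNfi.index_ne_zero
  · rintro _ ⟨n, hn, rfl⟩
    exact hB0inv _ (hNB0 n hn)
  · rintro _ ⟨n, hn, rfl⟩ h hh
    exact ⟨⟨h, hh⟩ * n * ⟨h, hh⟩⁻¹, (Subgroup.normalCore_normal _).conj_mem n hn ⟨h, hh⟩, rfl⟩

end MP63f86b
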