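import Pool.Agent.Lib.MP_63f86b_al.Bound

/-!
# Locally finite 2-groups of finite exponent: an element with finite centralizer
-/

universe u

open scoped Pointwise

namespace MP63f86b

/-- Finite subsets of the subgroup `H` generate finite subgroups. -/
def LF {G : Type u} [Group G] (H : Subgroup G) : Prop :=
  ∀ S : Set G, S.Finite → S ⊆ H → (Subgroup.closure S : Set G).Finite

theorem LF.mono {G : Type u} [Group G] {H K : Subgroup G} (hK : LF K) (h : H ≤ K) : LF H :=
  fun S hS hSH => hK S hS (hSH.trans h)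

/-- Lemma A: a locally finite 2-group `H` of finite exponent normalised by an element `x` with
`x^2` centralising `H` is finite if the centralizer of `x` in `H` is finite. -/
theorem finite_of_finite_fix {G : Type u} [Group G] (k : ℕ) (hexp : ∀ g : G, g ^ (2 ^ k) = 1)
    (H : Subgroup G) (hLF : LF H) (x : G) (hx : ∀ h ∈ H, x * h * x⁻¹ ∈ H)
    (hxx : ∀ h ∈ H, x * x * h = h * (x * x))
    (hfin : {h | h ∈ H ∧ x * h = h * x}.Finite) : (H : Set G).Finite := by
  by_contra hinf
  have hinf : (H : Set G).Infinite := hinf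
  set c := Nat.card {h // h ∈ H ∧ x * h = h * x} with hc
  obtain ⟨S, hSH, hScard⟩ := hinf.exists_subset_card_eq (bnd c k + 1)
  let S' : Set G := (S : Set G) ∪ (fun g => x * g * x⁻¹) '' S
  have hS'fin : S'.Finite := S.finite_toSet.union (S.finite_toSet.image _)
  have hS'H : S' ⊆ H := by
    rintro g (hg | ⟨g, hg, rfl⟩)
    · exact hSH hg
    · exact hx g (hSH hg)
  have hxinv : ∀ h ∈ H, x⁻¹ * h * x = x * h * x⁻¹ := by
    intro h hh
    have h1 := hxx h hh
    calc x⁻¹ * h * x = x⁻¹ * (h * (x * x)) * x⁻¹ := by group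
      _ = x⁻¹ * (x * x * h) * x⁻¹ := by rw [h1]
      _ = x * h * x⁻¹ := by group
  let F : Subgroup G := Subgroup.closure S'
  have hFH : F ≤ H := (Subgroup.closure_le H).mpr hS'H
  have hFfin : (F : Set G).Finite := hLF S' hS'fin hS'H
  have hFx : ∀ h ∈ F, x * h * x⁻¹ ∈ F := by
    intro h hh
    have h1 : F ≤ F.comap (MulAut.conj x).toMonoidHom := by
      refine (Subgroup.closure_le _).mpr ?_
      rintro g (hg | ⟨g, hg, rfl⟩)
      · exact Subgroup.subset_closure (Or.inr ⟨g, hg, rfl⟩)
      · have h2 : x * (x * g * x⁻¹) * x⁻¹ = g := by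
          have h3 := hxx g (hSH hg)
          calc x * (x * g * x⁻¹) * x⁻¹ = (x * x * g) * x⁻¹ * x⁻¹ := by group
            _ = (g * (x * x)) * x⁻¹ * x⁻¹ := by rw [h3]
            _ = g := by group
        change x * (x * g * x⁻¹) * x⁻¹ ∈ F
        rw [h2]
        exact Subgroup.subset_closure (Or.inl hg)
    exact h1 hh
  have hnorm : Subgroup.zpowers x ≤ Subgroup.normalizer (F : Set G) := by
    rw [Subgroup.zpowers_le, Subgroup.mem_normalizer_iff]
    intro h
    refine ⟨hFx h, fun hh => ?_⟩
    have h1 := hFx _ hh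
    have h2 := hxinv _ (hFH hh)
    have h3 : x⁻¹ * (x * h * x⁻¹) * x = h := by group
    rw [h3] at h2
    rw [h2]
    exact h1
  let P : Subgroup G := Subgroup.zpowers x ⊔ F
  have hFP : F ≤ P := le_sup_right
  have hPset : (P : Set G) = (Subgroup.zpowers x : Set G) * (F : Set G) :=
    Subgroup.coe_mul_of_left_le_normalizer_right _ _ hnorm
  have hxfin : (Subgroup.zpowers x : Set G).Finite := by
    have : IsOfFinOrder x := isOfFinOrder_iff_pow_eq_one.mpr ⟨2 ^ k, by positivity, hexp x⟩
    exact this.finite_zpowers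
  have hPfin : (P : Set G).Finite := by rw [hPset]; exact hxfin.mul hFfin
  have : Finite P := hPfin.to_subtype
  let F' : Subgroup P := F.subgroupOf P
  have hF'n : F'.Normal := by
    rw [Subgroup.normal_subgroupOf_iff_le_normalizer hFP]
    exact sup_le hnorm Subgroup.le_normalizer
  have hxP : x ∈ P := (le_sup_left : Subgroup.zpowers x ≤ P) (Subgroup.mem_zpowers x)
  have hfin' : Finite {h // h ∈ H ∧ x * h = h * x} := hfin.to_subtype
  have hcard : Nat.card (fixSet F' (⟨x, hxP⟩ : P)) ≤ c := by
    rw [hc]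
    apply Nat.card_le_card_of_injective
      (fun f : fixSet F' (⟨x, hxP⟩ : P) => (⟨(f.1 : G), by
        have h1 := mem_fixSet.mp f.2
        refine ⟨hFH (Subgroup.mem_subgroupOf.mp h1.1), ?_⟩
        exact congrArg Subtype.val h1.2⟩ : {h // h ∈ H ∧ x * h = h * x}))
    intro a b hab
    simp only [Subtype.mk.injEq] at hab
    exact Subtype.ext (Subtype.ext hab)
  have hle : Nat.card F' ≤ bnd c k := by
    apply card_le_bnd k c _ F' ⟨x, hxP⟩ _ hcard
    · intro g
      apply Subtype.ext
      simpa using hexp g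
    · intro f hf
      apply Subtype.ext
      exact hxx f (hFH (Subgroup.mem_subgroupOf.mp hf))
  have hFF' : Nat.card F' = Nat.card F :=
    Nat.card_congr (Subgroup.subgroupOfEquivOfLe hFP).toEquiv
  have hFfin' : Finite F := hFfin.to_subtype
  have hSF : Nat.card S ≤ Nat.card F := by
    apply Nat.card_le_card_of_injective (fun s : S => (⟨s.1,
      Subgroup.subset_closure (Or.inl s.2)⟩ : F))
    intro a b hab
    simp only [Subtype.mk.injEq] at hab
    exact Subtype.ext hab
  have : Nat.card S = bnd c k + 1 := by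
    rw [← hScard]; simp
  omega

end MP63f86b
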