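import Pool.Agent.Lib.MP_63f86b_al.General

/-!
# Centralizers of involutions of an FC-nilpotent maximal subgroup
-/

universe u

open scoped Pointwise

namespace MP63f86b

variable {G : Type u} [Group G]

theorem exists_sqrt (tor : ∀ g : G, ∃ k : ℕ, g ^ (2 ^ k) = 1) (B : Subgroup G) (w : G)
    (hinf : (B : Set G).Infinite) (hw : ∀ x ∈ B, x ≠ 1 → x * x = 1 → x = w) :
    ∃ v ∈ B, v * v = w := by
  obtain ⟨b, hb, hbn⟩ := hinf.exists_notMem_finset ({1, w} : Set G).toFinite.toFinset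
  simp only [Set.Finite.mem_toFinset, Set.mem_insert_iff, Set.mem_singleton_iff, not_or] at hbn
  obtain ⟨j, hj1, hj2⟩ := exists_involution_pow tor b hbn.1
  have h1 := hw _ (B.pow_mem hb _) hj1 hj2
  cases j with
  | zero =>
    simp only [pow_zero, pow_one] at h1
    exact absurd h1 hbn.2
  | succ i =>
    refine ⟨b ^ (2 ^ i), B.pow_mem hb _, ?_⟩
    rw [← h1, ← pow_add, ← two_mul, ← pow_succ']

namespace SimpleExample

theorem unique_involution (h : SimpleExample G) (M M' : Subgroup G)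
    (hA : ∀ M'' : Subgroup G, IsCoatom M'' → M'' ≠ M →
      ((M ⊓ M'' : Subgroup G) : Set G).Infinite → False)
    (hA' : ∀ M'' : Subgroup G, IsCoatom M'' → M'' ≠ M' →
      ((M' ⊓ M'' : Subgroup G) : Set G).Infinite → False)
    (hfin : ((M ⊓ M' : Subgroup G) : Set G).Finite)
    (z w : G) (hz2 : z * z = 1) (B B' : Subgroup G) (hBM : B ≤ M)
    (hBinf : (B : Set G).Infinite) (hBinv : ∀ b ∈ B, z * b * z⁻¹ = b⁻¹)
    (hBn : ∀ b ∈ B, ∀ h ∈ M, h * b * h⁻¹ ∈ B) (hB'M' : B' ≤ M')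
    (hB'inf : (B' : Set G).Infinite) (hB'inv : ∀ b ∈ B', w * b * w⁻¹ = b⁻¹)
    (hwM : Subgroup.centralizer {w} ≤ M)
    (hinf : ((B' ⊓ Subgroup.centralizer {z} : Subgroup G) : Set G).Infinite) :
    ∀ w' ∈ B', w' ∈ Subgroup.centralizer {z} → w' ≠ 1 → w' * w' = 1 → w' = z := by
  intro w' hw'B hw'z hw'1 hw'2
  by_contra hne
  have hzi : z⁻¹ = z := inv_eq_of_mul_eq_one_left hz2
  have hw'i : w'⁻¹ = w' := inv_eq_of_mul_eq_one_left hw'2
  have hzw' : w' * z = z * w' := Subgroup.mem_centralizer_singleton_iff.mp hw'z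
  have hBc := comm_of_inverted B z hBinv
  have hB'c := comm_of_inverted B' w hB'inv
  have hq1 : z * w' ≠ 1 := by
    intro h0
    apply hne
    calc w' = z⁻¹ * (z * w') := by group
      _ = z := by rw [h0, mul_one, hzi]
  -- `w' ∈ M`
  have hw'M : w' ∈ M := by
    apply hwM
    rw [Subgroup.mem_centralizer_singleton_iff]
    have h1 := hB'inv w' hw'B
    rw [hw'i] at h1
    calc w' * w = (w * w' * w⁻¹) * w := by rw [h1]
      _ = w * w' := by group
  -- `C(w') ≤ M'`
  have hCw' : Subgroup.centralizer {w'} ≤ M' := by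
    obtain ⟨M2, hM2, hle⟩ := exists_coatom h.fg _ (h.centralizer_ne_top hw'1)
    have : M2 = M' := by
      by_contra hne2
      apply hA' M2 hM2 hne2
      apply hB'inf.mono
      intro b hb
      exact ⟨hB'M' hb, hle (Subgroup.mem_centralizer_singleton_iff.mpr (hB'c b hb w' hw'B))⟩
    rw [← this]; exact hle
  have hfin2 : ((B ⊓ Subgroup.centralizer {w'} : Subgroup G) : Set G).Finite :=
    hfin.subset (fun g hg => ⟨hBM hg.1, hCw' hg.2⟩)
  -- the part of `B` inverted by `w'` is infinite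
  have hB1 : {b | b ∈ B ∧ w' * b * w'⁻¹ = b⁻¹}.Infinite := by
    intro hfB1
    apply hBinf
    have hpre : ((fun b : G => b * (w' * b * w'⁻¹)) ⁻¹'
        ((B ⊓ Subgroup.centralizer {w'} : Subgroup G) : Set G) ∩ (B : Set G)).Finite := by
      have : ((fun b : B => (b : G) * (w' * b * w'⁻¹)) ⁻¹'
          ((B ⊓ Subgroup.centralizer {w'} : Subgroup G) : Set G)).Finite := by
        apply Set.Finite.preimage' hfin2
        intro v _
        by_cases hv : ∃ p0 : B, (p0 : G) * (w' * p0 * w'⁻¹) = v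
        · obtain ⟨p0, rfl⟩ := hv
          have h1 : ((fun c : B => (p0 : G)⁻¹ * c) ⁻¹'
              {b | b ∈ B ∧ w' * b * w'⁻¹ = b⁻¹}).Finite := by
            apply hfB1.preimage
            intro x _ y _ hxy
            exact Subtype.ext (mul_left_cancel hxy)
          apply h1.subset
          intro p hp
          have hp' : (p : G) * (w' * p * w'⁻¹) = (p0 : G) * (w' * p0 * w'⁻¹) := hp
          refine ⟨B.mul_mem (B.inv_mem p0.2) p.2, ?_⟩
          change w' * ((p0 : G)⁻¹ * p) * w'⁻¹ = ((p0 : G)⁻¹ * p)⁻¹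
          have hy : w' * p * w'⁻¹ ∈ B := hBn p p.2 w' hw'M
          have hy0 : w' * p0 * w'⁻¹ ∈ B := hBn p0 p0.2 w' hw'M
          have e1 : (p : G) * (w' * p0 * w'⁻¹)⁻¹ = (w' * p0 * w'⁻¹)⁻¹ * p :=
            hBc _ p.2 _ (B.inv_mem hy0)
          have e2 : (p0 : G) * (w' * p0 * w'⁻¹) = (w' * p0 * w'⁻¹) * p0 := hBc _ p0.2 _ hy0
          have e3 : ((p0 : G)⁻¹ * p) * (w' * ((p0 : G)⁻¹ * p) * w'⁻¹) = 1 := by
            calc ((p0 : G)⁻¹ * p) * (w' * ((p0 : G)⁻¹ * p) * w'⁻¹)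
                = (p0 : G)⁻¹ * (p * (w' * p0 * w'⁻¹)⁻¹) * (w' * p * w'⁻¹) := by group
              _ = (p0 : G)⁻¹ * ((w' * p0 * w'⁻¹)⁻¹ * p) * (w' * p * w'⁻¹) := by rw [e1]
              _ = ((w' * p0 * w'⁻¹) * p0)⁻¹ * (p * (w' * p * w'⁻¹)) := by group
              _ = ((w' * p0 * w'⁻¹) * p0)⁻¹ * (p0 * (w' * p0 * w'⁻¹)) := by rw [hp']
              _ = 1 := by rw [e2]; group
          exact (inv_eq_of_mul_eq_one_right e3).symm
        · have : (fun b : B => (b : G) * (w' * b * w'⁻¹)) ⁻¹' {v} = ∅ := by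
            ext g
            simp only [Set.mem_preimage, Set.mem_singleton_iff, Set.mem_empty_iff_false,
              iff_false]
            exact fun hg => hv ⟨g, hg⟩
          rw [this]
          exact Set.finite_empty
      apply (this.image Subtype.val).subset
      rintro b ⟨h1, h2⟩
      exact ⟨⟨b, h2⟩, h1, rfl⟩
    apply hpre.subset
    intro b hb
    refine ⟨⟨B.mul_mem hb (hBn b hb w' hw'M), ?_⟩, hb⟩
    change b * (w' * b * w'⁻¹) ∈ Subgroup.centralizer {w'}
    rw [Subgroup.mem_centralizer_singleton_iff]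
    have e2 : b * (w' * b * w'⁻¹) = (w' * b * w'⁻¹) * b := hBc _ hb _ (hBn b hb w' hw'M)
    have e4 : w' * (w' * b * w'⁻¹) * w'⁻¹ = b := by
      calc w' * (w' * b * w'⁻¹) * w'⁻¹ = (w' * w') * b * (w' * w')⁻¹ := by group
        _ = b := by rw [hw'2]; group
    calc b * (w' * b * w'⁻¹) * w' = w' * (w' * b * w'⁻¹) * w'⁻¹ * (w' * b * w'⁻¹) * w' := by
          rw [e4]
      _ = w' * ((w' * b * w'⁻¹) * b) := by group
      _ = w' * (b * (w' * b * w'⁻¹)) := by rw [e2]
  -- `C(z w') ≤ M`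
  have hCq : Subgroup.centralizer {z * w'} ≤ M := by
    obtain ⟨M2, hM2, hle⟩ := exists_coatom h.fg _ (h.centralizer_ne_top hq1)
    have : M2 = M := by
      by_contra hne2
      apply hA M2 hM2 hne2
      apply hB1.mono
      rintro b ⟨hb, hbi⟩
      refine ⟨hBM hb, hle (Subgroup.mem_centralizer_singleton_iff.mpr ?_)⟩
      have h1 := hBinv _ (B.inv_mem hb)
      have h2 : (z * w') * b * (z * w')⁻¹ = b := by
        calc (z * w') * b * (z * w')⁻¹ = z * (w' * b * w'⁻¹) * z⁻¹ := by group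
          _ = z * b⁻¹ * z⁻¹ := by rw [hbi]
          _ = b := by rw [h1, inv_inv]
      calc b * (z * w') = ((z * w') * b * (z * w')⁻¹) * (z * w') := by rw [h2]
        _ = z * w' * b := by group
    rw [← this]; exact hle
  apply hinf
  apply hfin.subset
  rintro b ⟨hb, hbz⟩
  refine ⟨hCq (Subgroup.mem_centralizer_singleton_iff.mpr ?_), hB'M' hb⟩
  have h1 := Subgroup.mem_centralizer_singleton_iff.mp hbz
  have h2 := hB'c b hb w' hw'B
  calc b * (z * w') = (b * z) * w' := by group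
    _ = z * (b * w') := by rw [h1]; group
    _ = z * w' * b := by rw [h2]; group

/-- Step B: the centralizer of every involution of an FC-nilpotent maximal subgroup lies in this
subgroup. -/
theorem stepB (h : SimpleExample G) (hCC : ∀ H : Subgroup G, IsCoatom H → CC H)
    (M : Subgroup G) (hM : IsCoatom M)
    (hA : ∀ M'' : Subgroup G, IsCoatom M'' → M'' ≠ M →
      ((M ⊓ M'' : Subgroup G) : Set G).Infinite → False) :
    ∀ z ∈ M, z ≠ 1 → z * z = 1 → Subgroup.centralizer {z} ≤ M := by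
  intro z hzM hz1 hz2
  have hcent := h.infinite_centralizer hCC
  have hMinf : (M : Set G).Infinite := h.infinite_of_coatom hcent M hM
  obtain ⟨M', hM', hle⟩ := exists_coatom h.fg _ (h.centralizer_ne_top hz1)
  by_cases hne : M' = M
  · rw [← hne]; exact hle
  exfalso
  have hzi : z⁻¹ = z := inv_eq_of_mul_eq_one_left hz2
  have hMM' : ((M ⊓ M' : Subgroup G) : Set G).Finite := by
    by_contra hcon
    exact hA M' hM' hne hcon
  have hCMz : ((M ⊓ Subgroup.centralizer {z} : Subgroup G) : Set G).Finite :=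
    hMM'.subset (fun g hg => ⟨hg.1, hle hg.2⟩)
  obtain ⟨B, hBM, hBidx, hBinv, hBn⟩ := h.inverted M hM z hz2 hzM hCMz
  have hBc := comm_of_inverted B z hBinv
  have hBinf : (B : Set G).Infinite :=
    (infinite_of_relIndex hMinf hBidx).mono (fun g hg => hg.1)
  have hCB : ∀ w ∈ B, w ≠ 1 → w * w = 1 → Subgroup.centralizer {w} ≤ M := by
    intro w hw hw1 _
    obtain ⟨M2, hM2, hle2⟩ := exists_coatom h.fg _ (h.centralizer_ne_top hw1)
    have : M2 = M := by
      by_contra hne2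
      apply hA M2 hM2 hne2
      apply hBinf.mono
      intro b hb
      exact ⟨hBM hb, hle2 (Subgroup.mem_centralizer_singleton_iff.mpr (hBc b hb w hw))⟩
    rw [← this]; exact hle2
  -- an involution `w` of `B`
  obtain ⟨w, hwB, hw1, hw2⟩ : ∃ w ∈ B, w ≠ 1 ∧ w * w = 1 := by
    obtain ⟨b, hb, hb1⟩ := hBinf.exists_notMem_finset {1}
    rw [Finset.mem_singleton] at hb1
    obtain ⟨j, hj1, hj2⟩ := exists_involution_pow h.tor b hb1
    exact ⟨_, B.pow_mem hb _, hj1, hj2⟩
  have hwi : w⁻¹ = w := inv_eq_of_mul_eq_one_left hw2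
  have hCw := hCB w hwB hw1 hw2
  have hwz : w ∈ Subgroup.centralizer {z} := by
    rw [Subgroup.mem_centralizer_singleton_iff]
    have h1 := hBinv w hwB
    rw [hwi] at h1
    calc w * z = (z * w * z⁻¹) * z := by rw [h1]
      _ = z * w := by group
  have hwM' : w ∈ M' := hle hwz
  have hCM'w : ((M' ⊓ Subgroup.centralizer {w} : Subgroup G) : Set G).Finite :=
    hMM'.subset (fun g hg => ⟨hCw hg.2, hg.1⟩)
  obtain ⟨B', hB'M', hB'idx, hB'inv, hB'n⟩ := h.inverted M' hM' w hw2 hwM' hCM'w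
  have hB'c := comm_of_inverted B' w hB'inv
  have hA' := h.stepA_inverted hCC M' hM' w B' hB'M' hB'idx hB'inv hB'n
  have hM'inf : (M' : Set G).Infinite := h.infinite_of_coatom hcent M' hM'
  have hB'inf : (B' : Set G).Infinite :=
    (infinite_of_relIndex hM'inf hB'idx).mono (fun g hg => hg.1)
  have hB'z : ((B' ⊓ Subgroup.centralizer {z} : Subgroup G) : Set G).Infinite := by
    apply infinite_of_relIndex (hcent z hz1 hz2)
    exact fun h0 => hB'idx (Subgroup.relIndex_eq_zero_of_le_right hle h0)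
  have hU := h.unique_involution M M' hA hA' hMM' z w hz2 B B' hBM hBinf hBinv hBn hB'M' hB'inf
    hB'inv hCw hB'z
  -- `z ∈ B'`
  have hzB' : z ∈ B' := by
    obtain ⟨b, hb, hb1⟩ := hB'z.exists_notMem_finset {1}
    rw [Finset.mem_singleton] at hb1
    obtain ⟨j, hj1, hj2⟩ := exists_involution_pow h.tor b hb1
    have hbj : b ^ (2 ^ j) ∈ B' ⊓ Subgroup.centralizer {z} := Subgroup.pow_mem _ hb _
    rw [← hU _ hbj.1 hbj.2 hj1 hj2]
    exact hbj.1
  have hCz' : ∀ b ∈ B', b ∈ Subgroup.centralizer {z} := fun b hb =>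
    Subgroup.mem_centralizer_singleton_iff.mpr (hB'c b hb z hzB')
  have hCw' : ∀ b ∈ B, b ∈ Subgroup.centralizer {w} := fun b hb =>
    Subgroup.mem_centralizer_singleton_iff.mpr (hBc b hb w hwB)
  have hBw : ((B ⊓ Subgroup.centralizer {w} : Subgroup G) : Set G).Infinite :=
    hBinf.mono (fun b hb => ⟨hb, hCw' b hb⟩)
  have hMM'2 : ((M' ⊓ M : Subgroup G) : Set G).Finite :=
    hMM'.subset (fun g hg => ⟨hg.2, hg.1⟩)
  have hU2 := h.unique_involution M' M hA' hA hMM'2 w z hw2 B' B hB'M' hB'inf hB'inv hB'n hBM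
    hBinf hBinv hle hBw
  obtain ⟨v, hvB, hvw⟩ := exists_sqrt h.tor B w hBinf (fun x hx h1 h2 => hU2 x hx (hCw' x hx) h1 h2)
  obtain ⟨v', hv'B, hv'z⟩ := exists_sqrt h.tor B' z hB'inf
    (fun x hx h1 h2 => hU x hx (hCz' x hx) h1 h2)
  -- the element `v v'` permutes `z, w, z w` cyclically
  have ev : z * v * z⁻¹ = v⁻¹ := hBinv v hvB
  have ev' : w * v' * w⁻¹ = v'⁻¹ := hB'inv v' hv'B
  have hwz' : w * z = z * w := Subgroup.mem_centralizer_singleton_iff.mp hwz
  have hvw' : v * w = w * v := hBc v hvB w hwB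
  have hv'z' : v' * z = z * v' := hB'c v' hv'B z hzB'
  have hvi : v⁻¹ * v⁻¹ = w := by rw [← mul_inv_rev, hvw, hwi]
  have hv'i : v'⁻¹ * v'⁻¹ = z := by rw [← mul_inv_rev, hv'z, hzi]
  have c1 : v⁻¹ * z * v = w * z := by
    calc v⁻¹ * z * v = v⁻¹ * (z * v * z⁻¹) * z := by group
      _ = v⁻¹ * v⁻¹ * z := by rw [ev]
      _ = w * z := by rw [hvi]
  have c2 : v⁻¹ * w * v = w := by
    calc v⁻¹ * w * v = v⁻¹ * (w * v) := by group
      _ = v⁻¹ * (v * w) := by rw [hvw']
      _ = w := by group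
  have c3 : v'⁻¹ * w * v' = z * w := by
    calc v'⁻¹ * w * v' = v'⁻¹ * (w * v' * w⁻¹) * w := by group
      _ = v'⁻¹ * v'⁻¹ * w := by rw [ev']
      _ = z * w := by rw [hv'i]
  have c4 : v'⁻¹ * z * v' = z := by
    calc v'⁻¹ * z * v' = v'⁻¹ * (z * v') := by group
      _ = v'⁻¹ * (v' * z) := by rw [hv'z']
      _ = z := by group
  set g := v * v' with hg
  have d1 : g⁻¹ * z * g = w := by
    calc g⁻¹ * z * g = v'⁻¹ * (v⁻¹ * z * v) * v' := by rw [hg]; group
      _ = (v'⁻¹ * w * v') * (v'⁻¹ * z * v') := by rw [c1]; group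
      _ = (z * w) * z := by rw [c3, c4]
      _ = w * (z * z) := by rw [← hwz']; group
      _ = w := by rw [hz2, mul_one]
  have d2 : g⁻¹ * w * g = z * w := by
    calc g⁻¹ * w * g = v'⁻¹ * (v⁻¹ * w * v) * v' := by rw [hg]; group
      _ = z * w := by rw [c2, c3]
  have d3 : g⁻¹ * (z * w) * g = z := by
    calc g⁻¹ * (z * w) * g = (g⁻¹ * z * g) * (g⁻¹ * w * g) := by group
      _ = w * (z * w) := by rw [d1, d2]
      _ = z * (w * w) := by rw [← hwz']; rw [← mul_assoc, hw2, one_mul, mul_one]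
      _ = z := by rw [hw2, mul_one]
  have hg3 : Commute (g ^ 3) z := by
    have hgg : g ^ 3 = g * g * g := by rw [pow_succ, pow_two]
    have h1 : (g * g * g)⁻¹ * z * (g * g * g) = z := by
      calc (g * g * g)⁻¹ * z * (g * g * g) = g⁻¹ * (g⁻¹ * (g⁻¹ * z * g) * g) * g := by
            simp only [mul_inv_rev, mul_assoc]
        _ = z := by rw [d1, d2, d3]
    change g ^ 3 * z = z * g ^ 3
    rw [hgg]
    calc (g * g * g) * z = (g * g * g) * ((g * g * g)⁻¹ * z * (g * g * g)) := by rw [h1]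
      _ = z * (g * g * g) := by simp only [mul_assoc, mul_inv_cancel_left]
  have hgz : Commute g z := by
    obtain ⟨k, hk⟩ := h.tor g
    have hcop : Nat.Coprime 3 (2 ^ k) := Nat.Coprime.pow_right k (by norm_num)
    have h1 : g ^ 3 ∈ Subgroup.centralizer {z} :=
      Subgroup.mem_centralizer_singleton_iff.mpr hg3.eq
    have h2 : g ^ (2 ^ k) ∈ Subgroup.centralizer {z} := by rw [hk]; exact Subgroup.one_mem _
    have h3 : g ∈ Subgroup.centralizer {z} := by
      have hb := Nat.gcd_eq_gcd_ab 3 (2 ^ k)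
      rw [hcop.gcd_eq_one] at hb
      have h4 : g = (g ^ 3) ^ (Nat.gcdA 3 (2 ^ k)) * (g ^ (2 ^ k)) ^ (Nat.gcdB 3 (2 ^ k)) := by
        calc g = g ^ (1 : ℤ) := (zpow_one g).symm
          _ = g ^ (((3 : ℕ) : ℤ) * Nat.gcdA 3 (2 ^ k) + ((2 ^ k : ℕ) : ℤ) * Nat.gcdB 3 (2 ^ k)) := by
            rw [← hb]; rfl
          _ = _ := by rw [zpow_add, zpow_mul, zpow_mul, zpow_natCast, zpow_natCast]
      rw [h4]
      exact Subgroup.mul_mem _ (Subgroup.zpow_mem _ h1 _) (Subgroup.zpow_mem _ h2 _)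
    exact Subgroup.mem_centralizer_singleton_iff.mp h3
  have hzw : z = w := by
    rw [← d1]
    have := hgz.eq
    calc z = g⁻¹ * (g * z) := by group
      _ = g⁻¹ * (z * g) := by rw [this]
      _ = g⁻¹ * z * g := by group
  -- then `z ∈ B`, so that `B ≤ C_M(z)` is finite
  apply hBinf
  apply hCMz.subset
  intro b hb
  refine ⟨hBM hb, ?_⟩
  have := hCw' b hb
  rw [← hzw] at this
  exact this

/-- Main theorem in the simple case. -/
theorem main (h : SimpleExample G) (hCC : ∀ H : Subgroup G, IsCoatom H → CC H)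
    (M : Subgroup G) (hM : IsCoatom M) (hFN : FN M) : False :=
  h.final M hM (h.stepB hCC M hM (h.stepA hCC M hM hFN))

end SimpleExample

end MP63f86b
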