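import Pool.Agent.Lib.MP_63f86b_al.Reduce
import Pool.Agent.Lib.MP_63f86b_al.StepB

/-!
# Passing to the infinite simple quotient
-/

universe u

open scoped Pointwise

open Subgroup

namespace MP63f86b

/-- Infinite finitely generated 2-groups with locally finite proper subgroups. -/
structure Example (G : Type u) [Group G] : Prop where
  fg : Group.FG G
  inf : Infinite G
  tor : ∀ g : G, ∃ k : ℕ, g ^ (2 ^ k) = 1
  lf : ∀ H : Subgroup G, H ≠ ⊤ → LocallyFinite H

namespace Example

variable {G : Type u} [Group G]

/-- A proper normal subgroup has infinite index. -/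
theorem infinite_quotient (h : Example G) (N : Subgroup G) [N.Normal] (hN : N ≠ ⊤) :
    Infinite (G ⧸ N) := by
  by_contra hcon
  rw [not_infinite_iff_finite] at hcon
  have hfi : N.FiniteIndex := Subgroup.finiteIndex_of_finite_quotient
  have := h.fg
  have hNfg : Group.FG N := Subgroup.fg_of_index_ne_zero N
  have hNfin : Finite N := by
    have h1 : (⊤ : Subgroup N).FG := hNfg.out
    have h2 : Finite (⊤ : Subgroup N) := h.lf N hN _ h1
    exact (Subgroup.topEquiv (G := N)).toEquiv.finite_iff.mp h2
  have : Finite G := by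
    apply Nat.finite_of_card_ne_zero
    rw [← Subgroup.card_mul_index N]
    exact mul_ne_zero Nat.card_pos.ne' hfi.index_ne_zero
  have := h.inf
  exact not_finite G

/-- A proper normal subgroup lies in every maximal subgroup. -/
theorem le_of_coatom (h : Example G) (N : Subgroup G) [N.Normal] (hN : N ≠ ⊤)
    (M : Subgroup G) (hM : IsCoatom M) : N ≤ M := by
  by_contra hcon
  have htop : M ⊔ N = ⊤ := by
    apply hM.2
    rw [lt_iff_le_and_ne]
    refine ⟨le_sup_left, fun h0 => hcon ?_⟩
    rw [h0]; exact le_sup_right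
  let φ : M →* G ⧸ N := (QuotientGroup.mk' N).comp M.subtype
  have hφ : Function.Surjective φ := by
    intro q
    obtain ⟨g, rfl⟩ := QuotientGroup.mk'_surjective N q
    have hg : g ∈ (↑(M ⊔ N) : Set G) := by rw [htop]; exact Subgroup.mem_top g
    rw [Subgroup.mul_normal] at hg
    obtain ⟨m, hm, n, hn, rfl⟩ := hg
    refine ⟨⟨m, hm⟩, ?_⟩
    change (QuotientGroup.mk' N) m = (QuotientGroup.mk' N) (m * n)
    rw [map_mul]
    have : (QuotientGroup.mk' N) n = 1 := (QuotientGroup.eq_one_iff n).mpr hn
    rw [this, mul_one]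
  have hLF : LocallyFinite (G ⧸ N) := (h.lf M hM.1).of_surjective φ hφ
  have := h.fg
  have hfg : Group.FG (G ⧸ N) := QuotientGroup.fg N
  have hfin : Finite (⊤ : Subgroup (G ⧸ N)) := hLF _ hfg.out
  have hfin' : Finite (G ⧸ N) := (Subgroup.topEquiv (G := G ⧸ N)).toEquiv.finite_iff.mp hfin
  have := h.infinite_quotient N hN
  exact not_finite (G ⧸ N)

theorem comap_ne_top {N : Subgroup G} [N.Normal] {H : Subgroup (G ⧸ N)} (hH : H ≠ ⊤) :
    H.comap (QuotientGroup.mk' N) ≠ ⊤ := by
  intro h0
  apply hH
  rw [eq_top_iff]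
  intro y _
  obtain ⟨x, rfl⟩ := QuotientGroup.mk'_surjective N y
  have : x ∈ H.comap (QuotientGroup.mk' N) := by rw [h0]; exact Subgroup.mem_top x
  exact this

/-- The quotient by a maximal proper normal subgroup. -/
theorem simple_quotient (h : Example G) (N : Subgroup G) [N.Normal] (hN : N ≠ ⊤)
    (hmax : ∀ K : Subgroup G, K.Normal → N ≤ K → K = N ∨ K = ⊤) :
    SimpleExample (G ⧸ N) where
  fg := by
    have := h.fg
    exact QuotientGroup.fg N
  inf := h.infinite_quotient N hN
  tor := by
    intro g
    obtain ⟨g, rfl⟩ := QuotientGroup.mk'_surjective N g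
    obtain ⟨k, hk⟩ := h.tor g
    exact ⟨k, by rw [← map_pow, hk, map_one]⟩
  simple := by
    intro K hK
    have hle : N ≤ K.comap (QuotientGroup.mk' N) := by
      intro n hn
      have : (QuotientGroup.mk' N) n = 1 := (QuotientGroup.eq_one_iff n).mpr hn
      rw [Subgroup.mem_comap, this]
      exact K.one_mem
    rcases hmax _ (hK.comap _) hle with h1 | h1
    · left
      rw [eq_bot_iff]
      intro y hy
      obtain ⟨x, rfl⟩ := QuotientGroup.mk'_surjective N y
      have h2 : x ∈ K.comap (QuotientGroup.mk' N) := hy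
      rw [h1] at h2
      rw [Subgroup.mem_bot]
      exact (QuotientGroup.eq_one_iff x).mpr h2
    · right
      by_contra h2
      exact comap_ne_top h2 h1
  lf := by
    intro H hH
    apply LF_of_locallyFinite
    exact (h.lf _ (comap_ne_top hH)).of_surjective
      ((QuotientGroup.mk' N).subgroupComap H)
      (MonoidHom.subgroupComap_surjective_of_surjective _ _ (QuotientGroup.mk'_surjective N))

theorem map_coatom {N : Subgroup G} [N.Normal] (M : Subgroup G) (hM : IsCoatom M) (hNM : N ≤ M) :
    IsCoatom (M.map (QuotientGroup.mk' N)) := by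
  have hc : (M.map (QuotientGroup.mk' N)).comap (QuotientGroup.mk' N) = M := by
    rw [Subgroup.comap_map_eq, QuotientGroup.ker_mk']
    exact sup_eq_left.mpr hNM
  constructor
  · intro h0
    rw [h0, Subgroup.comap_top] at hc
    exact hM.1 hc.symm
  · intro K hK
    have h1 : M < K.comap (QuotientGroup.mk' N) := by
      rw [lt_iff_le_and_ne]
      refine ⟨?_, ?_⟩
      · rw [← hc]
        exact Subgroup.comap_mono hK.le
      · intro h0
        rw [h0, Subgroup.map_comap_eq_self_of_surjective (QuotientGroup.mk'_surjective N)] at hK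
        exact lt_irrefl _ hK
    have h2 := hM.2 _ h1
    by_contra h3
    exact comap_ne_top h3 h2

theorem comap_coatom {N : Subgroup G} [N.Normal] {H : Subgroup (G ⧸ N)} (hH : IsCoatom H) :
    IsCoatom (H.comap (QuotientGroup.mk' N)) := by
  refine ⟨comap_ne_top hH.1, ?_⟩
  intro K hK
  have hNK : N ≤ K := by
    refine le_trans ?_ hK.le
    intro n hn
    have : (QuotientGroup.mk' N) n = 1 := (QuotientGroup.eq_one_iff n).mpr hn
    rw [Subgroup.mem_comap, this]
    exact H.one_mem
  have hc : (K.map (QuotientGroup.mk' N)).comap (QuotientGroup.mk' N) = K := by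
    rw [Subgroup.comap_map_eq, QuotientGroup.ker_mk']
    exact sup_eq_left.mpr hNK
  have h1 : H < K.map (QuotientGroup.mk' N) := by
    rw [lt_iff_le_and_ne]
    refine ⟨?_, ?_⟩
    · rw [← Subgroup.map_comap_eq_self_of_surjective (QuotientGroup.mk'_surjective N) H]
      exact Subgroup.map_mono hK.le
    · intro h0
      rw [h0, hc] at hK
      exact lt_irrefl _ hK
  have h2 := hH.2 _ h1
  rw [h2, Subgroup.comap_top] at hc
  exact hc.symm

end Example

theorem bot_ne_top_of_infinite (G : Type u) [Group G] (hinf : Infinite G) :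
    (⊥ : Subgroup G) ≠ ⊤ := by
  intro h0
  have : Subsingleton G := by
    refine ⟨fun a b => ?_⟩
    have ha : a ∈ (⊥ : Subgroup G) := h0 ▸ Subgroup.mem_top a
    have hb : b ∈ (⊥ : Subgroup G) := h0 ▸ Subgroup.mem_top b
    rw [Subgroup.mem_bot] at ha hb
    rw [ha, hb]
  exact not_finite G

/-- Main theorem. -/
theorem main_theorem (G : Type u) [Group G] (hfg : Group.FG G) (hinf : Infinite G)
    (tor : ∀ g : G, ∃ k : ℕ, g ^ (2 ^ k) = 1)
    (hLF : ∀ H : Subgroup G, H ≠ ⊤ → LocallyFinite H)
    (hCC : ∀ M : Subgroup G, IsCoatom M → CommensuratorCondition M)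
    (M : Subgroup G) (hM : IsCoatom M) : ¬ FCNilpotent M := by
  intro hMn
  have h : Example G := ⟨hfg, hinf, tor, hLF⟩
  obtain ⟨N, hNn, hN, _, hmax⟩ := exists_max_normal hfg ⊥ inferInstance
    (bot_ne_top_of_infinite G hinf)
  have hNM : N ≤ M := h.le_of_coatom N hN M hM
  have hs := h.simple_quotient N hN hmax
  apply hs.main _ (M.map (QuotientGroup.mk' N)) (Example.map_coatom M hM hNM)
  · apply FN_of_FCNilpotent
    exact hMn.of_surjective ((QuotientGroup.mk' N).subgroupMap M)
      (MonoidHom.subgroupMap_surjective _ _)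
  · intro H hH
    apply CC_of_commensuratorCondition
    exact (hCC _ (Example.comap_coatom hH)).of_surjective
      ((QuotientGroup.mk' N).subgroupComap H)
      (MonoidHom.subgroupComap_surjective_of_surjective _ _ (QuotientGroup.mk'_surjective N))

/-- FC-nilpotent groups are FC-hypercentral. -/
theorem FCNilpotent.fcHypercentral {H : Type*} [Group H] (h : FCNilpotent H) :
    FCHypercentral H := by
  obtain ⟨n, W, hW0, hWn, hWnorm, hW⟩ := h
  intro K hK hKtop
  classical
  have hex : ∃ i, ¬ W i ≤ K := ⟨n, fun h0 => hKtop (top_le_iff.mp (hWn ▸ h0))⟩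
  have hspec := Nat.find_spec hex
  have hmin := fun i => @Nat.find_min _ _ hex i
  cases hi : Nat.find hex with
  | zero =>
    rw [hi, hW0] at hspec
    exact absurd bot_le hspec
  | succ i =>
    rw [hi] at hspec
    have hle : W i ≤ K := by
      have := hmin i (by omega)
      simpa using this
    obtain ⟨x, hx, hxK⟩ := SetLike.not_le_iff_exists.mp hspec
    obtain ⟨L, hL, hLx⟩ := hW i x hx
    exact ⟨x, hxK, L, hL, fun g hg => hle (hLx g hg)⟩

/-- A group with a nilpotent subgroup of finite index is FC-nilpotent. -/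
theorem fcNilpotent_of_virtuallyNilpotent {H : Type*} [Group H]
    (h : ∃ N : Subgroup H, N.FiniteIndex ∧ Group.IsNilpotent N) : FCNilpotent H := by
  classical
  obtain ⟨N0, hN0, hnil0⟩ := h
  let N : Subgroup H := N0.normalCore
  have hNn : N.Normal := Subgroup.normalCore_normal N0
  have hNfi : N.FiniteIndex := inferInstance
  have hNN0 : N ≤ N0 := Subgroup.normalCore_le N0
  have hnil : Group.IsNilpotent N := by
    have h1 : Group.IsNilpotent (N.subgroupOf N0) := inferInstance
    exact Group.nilpotent_of_mulEquiv (Subgroup.subgroupOfEquivOfLe hNN0)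
  obtain ⟨c, hc⟩ := hnil
  refine ⟨c + 1, fun i => if i ≤ c then (Subgroup.upperCentralSeries N i).map N.subtype else ⊤,
    ?_, ?_, ?_, ?_⟩
  · simp
  · simp
  · intro i
    by_cases hi : i ≤ c
    · simp only [hi, if_true]
      infer_instance
    · simp only [hi, if_false]
      infer_instance
  · intro i x hx
    refine ⟨N, hNfi, fun g hg => ?_⟩
    by_cases hi : i + 1 ≤ c
    · have hi' : i ≤ c := by omega
      simp only [hi, if_true] at hx
      simp only [hi', if_true]
      obtain ⟨y, hy, rfl⟩ := hx
      exact ⟨_, (Subgroup.mem_upperCentralSeries_succ_iff.mp hy) ⟨g, hg⟩, rfl⟩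
    · by_cases hi' : i ≤ c
      · have hic : i = c := by omega
        subst hic
        simp only [hi', if_true]
        rw [hc, ← MonoidHom.range_eq_map, Subgroup.range_subtype]
        exact N.mul_mem (hNn.conj_mem g hg x) (N.inv_mem hg)
      · simp only [hi', if_false]
        exact Subgroup.mem_top _

/-- A group in which every element has finitely many conjugates is FC-nilpotent. -/
theorem fcNilpotent_of_FC {H : Type*} [Group H]
    (h : ∀ x : H, (Subgroup.centralizer {x}).FiniteIndex) : FCNilpotent H := by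
  refine ⟨1, fun i => if i = 0 then ⊥ else ⊤, by simp, by simp, ?_, ?_⟩
  · intro i
    by_cases hi : i = 0
    · simp only [hi, if_true]; infer_instance
    · simp only [hi, if_false]; infer_instance
  · intro i x _
    refine ⟨Subgroup.centralizer {x}, h x, fun g hg => ?_⟩
    have h1 : x * g * x⁻¹ * g⁻¹ = 1 := by
      have h2 := Subgroup.mem_centralizer_singleton_iff.mp hg
      rw [← h2]; group
    rw [h1]
    exact Subgroup.one_mem _

end MP63f86b
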