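import Pool.Agent.Lib.MP_63f86b_al.Comm
import Pool.Agent.Lib.MP_63f86b_al.Defs

/-!
# Reduction to the simple case
-/

universe u

open scoped Pointwise

open Subgroup

namespace MP63f86b

/-- Dietzmann's lemma for 2-groups: the normal closure of an element of finite order with
finitely many conjugates is finite. -/
theorem finite_closure_conj {Q : Type u} [Group Q] (tor : ∀ g : Q, ∃ k : ℕ, g ^ (2 ^ k) = 1)
    (x : Q) (hx : (Subgroup.centralizer {x}).index ≠ 0) :
    (Subgroup.closure {y : Q | ∃ g : Q, y = g * x * g⁻¹} : Set Q).Finite := by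
  set C : Set Q := {y : Q | ∃ g : Q, y = g * x * g⁻¹} with hC
  have hfi : (Subgroup.centralizer {x}).FiniteIndex := ⟨hx⟩
  have hfinq : Finite (Q ⧸ Subgroup.centralizer {x}) := inferInstance
  have hCfin : C.Finite := by
    apply (Set.finite_range (fun q : Q ⧸ Subgroup.centralizer {x} => q.out * x * q.out⁻¹)).subset
    rintro y ⟨g, rfl⟩
    refine ⟨QuotientGroup.mk g, ?_⟩
    obtain ⟨c, hc⟩ := QuotientGroup.mk_out_eq_mul (Subgroup.centralizer {x}) g
    have hcx := Subgroup.mem_centralizer_singleton_iff.mp c.2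
    change (QuotientGroup.mk g : Q ⧸ _).out * x * (QuotientGroup.mk g : Q ⧸ _).out⁻¹ = _
    rw [hc]
    calc g * (c : Q) * x * (g * (c : Q))⁻¹ = g * ((c : Q) * x) * (c : Q)⁻¹ * g⁻¹ := by group
      _ = g * (x * (c : Q)) * (c : Q)⁻¹ * g⁻¹ := by rw [hcx]
      _ = g * x * g⁻¹ := by group
  let P : Subgroup Q := Subgroup.closure C
  have hPfg : Group.FG P := by
    rw [Group.fg_iff_subgroup_fg, Subgroup.fg_iff]
    exact ⟨C, rfl, hCfin⟩
  have hcent : ∀ c : C, (Subgroup.centralizer {(c : Q)}).index ≠ 0 := by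
    rintro ⟨c, g, rfl⟩
    have h1 : (Subgroup.centralizer {g * x * g⁻¹}) =
        ConjAct.toConjAct g • Subgroup.centralizer {x} := (centralizer_smul g x).symm
    rw [h1, ← Subgroup.relIndex_top_right]
    have h2 : (⊤ : Subgroup Q) = ConjAct.toConjAct g • ⊤ := by
      symm
      rw [eq_top_iff]
      intro y _
      rw [Subgroup.mem_pointwise_smul_iff_inv_smul_mem]
      exact Subgroup.mem_top _
    rw [h2, Subgroup.relIndex_pointwise_smul, Subgroup.relIndex_top_right]
    exact hx
  have hinter : (⨅ c : C, Subgroup.centralizer {(c : Q)}).relIndex P ≠ 0 := by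
    have : Finite C := hCfin.to_subtype
    apply Subgroup.relIndex_iInf_ne_zero
    intro c h0
    exact hcent c (Subgroup.index_eq_zero_of_relIndex_eq_zero h0)
  have hle : (⨅ c : C, Subgroup.centralizer {(c : Q)}).subgroupOf P ≤ Subgroup.center P := by
    intro y hy
    rw [Subgroup.mem_center_iff]
    intro g
    apply Subtype.ext
    have hy' := Subgroup.mem_subgroupOf.mp hy
    have h1 : P ≤ Subgroup.centralizer {(y : Q)} := by
      change Subgroup.closure C ≤ _
      rw [Subgroup.closure_le]
      intro c hc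
      have h2 := Subgroup.mem_centralizer_singleton_iff.mp ((Subgroup.mem_iInf.mp hy') ⟨c, hc⟩)
      exact Subgroup.mem_centralizer_singleton_iff.mpr h2.symm
    exact Subgroup.mem_centralizer_singleton_iff.mp (h1 g.2)
  have hZ : (Subgroup.center P).FiniteIndex := by
    constructor
    intro h0
    apply hinter
    exact Subgroup.index_eq_zero_of_relIndex_eq_zero
      (by
        have := Subgroup.relIndex_eq_zero_of_le_left hle (L := ⊤)
          (by rw [Subgroup.relIndex_top_right]; exact h0)
        exact this)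
  have hZfg : Group.FG (Subgroup.center P) := Subgroup.fg_of_index_ne_zero (Subgroup.center P)
  let inst : CommGroup (Subgroup.center P) :=
    { (inferInstance : Group (Subgroup.center P)) with
      mul_comm := fun a b => Subtype.ext (Subgroup.mem_center_iff.mp b.2 a.1) }
  have hZfin : Finite (Subgroup.center P) := by
    apply CommGroup.finite_of_fg_isMulTorsion
    intro g
    rw [isOfFinOrder_iff_pow_eq_one]
    obtain ⟨k, hk⟩ := tor g
    refine ⟨2 ^ k, by positivity, ?_⟩
    apply Subtype.ext
    apply Subtype.ext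
    simpa using hk
  have : Finite P := by
    apply Nat.finite_of_card_ne_zero
    rw [← Subgroup.card_mul_index (Subgroup.center P)]
    exact mul_ne_zero Nat.card_pos.ne' hZ.index_ne_zero
  exact Set.toFinite _

/-- Local finiteness for a group, in terms of finite subsets of a subgroup. -/
theorem LF_of_locallyFinite {G : Type u} [Group G] (H : Subgroup G) (h : LocallyFinite H) :
    LF H := by
  intro S hS hSH
  let K : Subgroup H := Subgroup.closure (Subtype.val ⁻¹' S)
  have hK : K.FG := by
    rw [Subgroup.fg_iff]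
    exact ⟨_, rfl, hS.preimage Subtype.val_injective.injOn⟩
  have : Finite K := h K hK
  have hmap : K.map H.subtype = Subgroup.closure S := by
    rw [MonoidHom.map_closure]
    congr 1
    ext x
    constructor
    · rintro ⟨y, hy, rfl⟩; exact hy
    · intro hx; exact ⟨⟨x, hSH hx⟩, hx, rfl⟩
  rw [← hmap, Subgroup.coe_map]
  exact (Set.toFinite (K : Set H)).image _

theorem locallyFinite_of_LF {G : Type u} [Group G] (H : Subgroup G) (h : LF H) :
    LocallyFinite H := by
  intro K hK
  obtain ⟨S, hS, hSfin⟩ := (Subgroup.fg_iff K).mp hK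
  have h1 := h (H.subtype '' S) (hSfin.image _) (by rintro _ ⟨y, _, rfl⟩; exact y.2)
  have h2 : K.map H.subtype = Subgroup.closure (H.subtype '' S) := by
    rw [← hS, MonoidHom.map_closure]
  rw [← h2] at h1
  have : Finite (K.map H.subtype) := h1.to_subtype
  exact Finite.of_injective (fun x : K => (⟨H.subtype x, Subgroup.mem_map_of_mem _ x.2⟩ :
    K.map H.subtype)) (by
      intro x y hxy
      simp only [Subtype.mk.injEq] at hxy
      exact Subtype.ext (Subtype.ext hxy))

theorem LocallyFinite.of_surjective {H H' : Type*} [Group H] [Group H'] (φ : H →* H')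
    (hφ : Function.Surjective φ) (h : LocallyFinite H) : LocallyFinite H' := by
  intro K hK
  obtain ⟨S, hS, hSfin⟩ := (Subgroup.fg_iff K).mp hK
  -- lift the generators
  let T : Set H := (fun y => Function.surjInv hφ y) '' S
  have hT : φ '' T = S := by
    ext y
    constructor
    · rintro ⟨_, ⟨z, hz, rfl⟩, rfl⟩
      change φ (Function.surjInv hφ z) ∈ S
      rw [Function.surjInv_eq hφ z]; exact hz
    · intro hy
      exact ⟨_, ⟨y, hy, rfl⟩, Function.surjInv_eq hφ y⟩
  have hfin : Finite (Subgroup.closure T) :=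
    h _ ((Subgroup.fg_iff _).mpr ⟨T, rfl, hSfin.image _⟩)
  have h2 : (Subgroup.closure T).map φ = K := by
    rw [MonoidHom.map_closure, hT, hS]
  rw [← h2]
  exact ((Set.toFinite (Subgroup.closure T : Set H)).image φ).to_subtype

theorem FCHypercentral.of_surjective {H H' : Type*} [Group H] [Group H'] (φ : H →* H')
    (hφ : Function.Surjective φ) (h : FCHypercentral H) : FCHypercentral H' := by
  intro K hK hKtop
  have h1 : K.comap φ ≠ ⊤ := by
    intro h0
    apply hKtop
    rw [eq_top_iff]
    intro y _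
    obtain ⟨x, rfl⟩ := hφ y
    have : x ∈ K.comap φ := by rw [h0]; exact Subgroup.mem_top x
    exact this
  obtain ⟨x, hx, L, hL, hLx⟩ := h (K.comap φ) (hK.comap φ) h1
  refine ⟨φ x, hx, L.map φ, ?_, ?_⟩
  · constructor
    have h3 := Subgroup.index_map_dvd L hφ
    exact fun h0 => hL.index_ne_zero (Nat.eq_zero_of_zero_dvd (h0 ▸ h3))
  · rintro _ ⟨g, hg, rfl⟩
    have := hLx g hg
    rw [Subgroup.mem_comap] at this
    simpa using this

theorem FCNilpotent.of_surjective {H H' : Type*} [Group H] [Group H'] (φ : H →* H')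
    (hφ : Function.Surjective φ) (h : FCNilpotent H) : FCNilpotent H' := by
  obtain ⟨n, W, hW0, hWn, hWnorm, hW⟩ := h
  refine ⟨n, fun i => (W i).map φ, ?_, ?_, ?_, ?_⟩
  · simp [hW0]
  · change (W n).map φ = ⊤
    rw [hWn, ← MonoidHom.range_eq_map, MonoidHom.range_eq_top]
    exact hφ
  · intro i
    exact (hWnorm i).map φ hφ
  · rintro i _ ⟨x, hx, rfl⟩
    obtain ⟨L, hL, hLx⟩ := hW i x hx
    refine ⟨L.map φ, ?_, ?_⟩
    · constructor
      have h3 := Subgroup.index_map_dvd L hφ
      exact fun h0 => hL.index_ne_zero (Nat.eq_zero_of_zero_dvd (h0 ▸ h3))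
    · rintro _ ⟨g, hg, rfl⟩
      refine ⟨x * g * x⁻¹ * g⁻¹, hLx g hg, by simp⟩

theorem relIndex_map_subtype {G : Type u} [Group G] (H : Subgroup G) (L : Subgroup H) :
    (L.map H.subtype).relIndex H = L.index := by
  rw [Subgroup.relIndex, Subgroup.subgroupOf,
    Subgroup.comap_map_eq_self_of_injective H.subtype_injective]

theorem FH_of_FCHypercentral {G : Type u} [Group G] (H : Subgroup G) (h : FCHypercentral H) :
    FH H := by
  intro K hKH hKn hKne
  have hn : (K.subgroupOf H).Normal := by
    constructor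
    intro x hx g
    rw [Subgroup.mem_subgroupOf] at hx ⊢
    exact hKn g g.2 x hx
  have hne : K.subgroupOf H ≠ ⊤ := by
    intro h0
    rw [Subgroup.subgroupOf_eq_top] at h0
    exact hKne (le_antisymm hKH h0)
  obtain ⟨x, hx, L, hL, hLx⟩ := h _ hn hne
  refine ⟨x, x.2, fun h0 => hx (Subgroup.mem_subgroupOf.mpr h0), L.map H.subtype, ?_, ?_⟩
  · rw [relIndex_map_subtype]; exact hL.index_ne_zero
  · rintro _ ⟨g, hg, rfl⟩ _
    have := hLx g hg
    rw [Subgroup.mem_subgroupOf] at this
    simpa using this

theorem FN_of_FCNilpotent {G : Type u} [Group G] (H : Subgroup G) (h : FCNilpotent H) :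
    FN H := by
  obtain ⟨n, W, hW0, hWn, hWnorm, hW⟩ := h
  refine ⟨n, fun i => (W i).map H.subtype, ?_, ?_, ?_, ?_⟩
  · simp [hW0]
  · change (W n).map H.subtype = H
    rw [hWn, ← MonoidHom.range_eq_map, Subgroup.range_subtype]
  · rintro i _ ⟨x, _, rfl⟩
    exact x.2
  · rintro i _ ⟨x, hx, rfl⟩
    obtain ⟨L, hL, hLx⟩ := hW i x hx
    refine ⟨L.map H.subtype, ?_, ?_⟩
    · rw [relIndex_map_subtype]; exact hL.index_ne_zero
    · rintro _ ⟨g, hg, rfl⟩ _
      exact ⟨x * g * x⁻¹ * g⁻¹, hLx g hg, by simp⟩

theorem comap_conj_smul {H H' : Type*} [Group H] [Group H'] (φ : H →* H') (y : H)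
    (E : Subgroup H') :
    (ConjAct.toConjAct (φ y) • E).comap φ = ConjAct.toConjAct y • (E.comap φ) := by
  ext x
  rw [Subgroup.mem_comap, Subgroup.mem_pointwise_smul_iff_inv_smul_mem,
    Subgroup.mem_pointwise_smul_iff_inv_smul_mem, ← ConjAct.toConjAct_inv,
    ConjAct.toConjAct_smul, ← ConjAct.toConjAct_inv, ConjAct.toConjAct_smul, Subgroup.mem_comap]
  simp

theorem relIndex_comap_comap {H H' : Type*} [Group H] [Group H'] (φ : H →* H')
    (hφ : Function.Surjective φ) (A B : Subgroup H') :
    (A.comap φ).relIndex (B.comap φ) = A.relIndex B := by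
  rw [Subgroup.relIndex_comap, Subgroup.map_comap_eq_self_of_surjective hφ]

theorem CommensuratorCondition.of_surjective {H H' : Type*} [Group H] [Group H'] (φ : H →* H')
    (hφ : Function.Surjective φ) (h : CommensuratorCondition H) : CommensuratorCondition H' := by
  intro E hE
  have h1 : E.comap φ ≠ ⊤ := by
    intro h0
    apply hE
    rw [eq_top_iff]
    intro y _
    obtain ⟨x, rfl⟩ := hφ y
    have : x ∈ E.comap φ := by rw [h0]; exact Subgroup.mem_top x
    exact this
  obtain ⟨y, hy, hyc⟩ := h _ h1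
  refine ⟨φ y, hy, ?_⟩
  rw [Subgroup.Commensurable.commensurator_mem_iff] at hyc ⊢
  rw [← comap_conj_smul] at hyc
  exact ⟨by rw [← relIndex_comap_comap φ hφ]; exact hyc.1,
    by rw [← relIndex_comap_comap φ hφ]; exact hyc.2⟩

theorem CC_of_commensuratorCondition {G : Type u} [Group G] (M : Subgroup G)
    (h : CommensuratorCondition M) : CC M := by
  intro E hE
  have hne : E.subgroupOf M ≠ ⊤ := by
    intro h0
    rw [Subgroup.subgroupOf_eq_top] at h0
    exact absurd h0 (not_le_of_gt hE)
  obtain ⟨y, hy, hyc⟩ := h _ hne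
  refine ⟨y, y.2, fun h0 => hy (Subgroup.mem_subgroupOf.mpr h0), ?_⟩
  rw [Subgroup.Commensurable.commensurator_mem_iff] at hyc ⊢
  have e1 : (E.subgroupOf M).map M.subtype = E := Subgroup.map_subgroupOf_eq_of_le hE.le
  have e2 : (ConjAct.toConjAct y • (E.subgroupOf M)).map M.subtype =
      ConjAct.toConjAct (y : G) • E := by
    ext x
    rw [Subgroup.mem_map, Subgroup.mem_pointwise_smul_iff_inv_smul_mem, ← ConjAct.toConjAct_inv,
      ConjAct.toConjAct_smul]
    constructor
    · rintro ⟨z, hz, rfl⟩
      rw [Subgroup.mem_pointwise_smul_iff_inv_smul_mem, ← ConjAct.toConjAct_inv,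
        ConjAct.toConjAct_smul, Subgroup.mem_subgroupOf] at hz
      simpa using hz
    · intro hx
      have hxM : x ∈ M := by
        have h1 := M.mul_mem (M.mul_mem y.2 (hE.le hx)) (M.inv_mem y.2)
        have h2 : (y : G) * ((y : G)⁻¹ * x * (y : G)⁻¹⁻¹) * (y : G)⁻¹ = x := by group
        rwa [h2] at h1
      refine ⟨⟨x, hxM⟩, ?_, rfl⟩
      rw [Subgroup.mem_pointwise_smul_iff_inv_smul_mem, ← ConjAct.toConjAct_inv,
        ConjAct.toConjAct_smul, Subgroup.mem_subgroupOf]
      simpa using hx
  constructor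
  · have h1 := hyc.1
    rw [← Subgroup.relIndex_map_map_of_injective _ _ M.subtype_injective, e1, e2] at h1
    exact h1
  · have h1 := hyc.2
    rw [← Subgroup.relIndex_map_map_of_injective _ _ M.subtype_injective, e1, e2] at h1
    exact h1

/-- FC-hypercentral groups satisfy the commensurator condition. -/
theorem FCHypercentral.commensuratorCondition {H : Type u} [Group H] (h : FCHypercentral H) :
    CommensuratorCondition H := by
  intro E hE
  have hF : FH (⊤ : Subgroup H) := by
    intro K _ hKn hKne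
    have hn : K.Normal := ⟨fun x hx g => hKn g (Subgroup.mem_top g) x hx⟩
    obtain ⟨x, hx, L, hL, hLx⟩ := h K hn hKne
    refine ⟨x, Subgroup.mem_top x, hx, L, ?_, fun g hg _ => hLx g hg⟩
    rw [Subgroup.relIndex_top_right]
    exact hL.index_ne_zero
  obtain ⟨y, _, hyE, hyc⟩ := exists_mem_Comm ⊤ E (lt_top_iff_ne_top.mpr hE) hF
  exact ⟨y, hyE, hyc⟩

/-- Groups with the normalizer condition satisfy the commensurator condition. -/
theorem commensuratorCondition_of_normalizerCondition {H : Type u} [Group H]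
    (h : NormalizerCondition H) : CommensuratorCondition H := by
  intro E hE
  obtain ⟨_, y, hy, hyE⟩ := SetLike.lt_iff_le_and_exists.mp (h E (lt_top_iff_ne_top.mpr hE))
  refine ⟨y, hyE, ?_⟩
  rw [Subgroup.Commensurable.commensurator_mem_iff, Subgroup.conjAct_pointwise_smul_eq_self hy]

/-- A group with a normal locally finite subgroup and finite quotient is locally finite. -/
theorem LF_comap {H : Type u} [Group H] (N : Subgroup H) [N.Normal] (hN : LF N)
    (P : Subgroup (H ⧸ N)) (hP : (P : Set (H ⧸ N)).Finite) :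
    LF (P.comap (QuotientGroup.mk' N)) := by
  intro S hS hSP
  let K : Subgroup H := Subgroup.closure S
  have hKP : K ≤ P.comap (QuotientGroup.mk' N) := (Subgroup.closure_le _).mpr hSP
  have hKfg : Group.FG K := by
    rw [Group.fg_iff_subgroup_fg, Subgroup.fg_iff]
    exact ⟨S, rfl, hS⟩
  have hmapfin : ((K.map (QuotientGroup.mk' N) : Subgroup _) : Set (H ⧸ N)).Finite := by
    apply hP.subset
    rintro _ ⟨x, hx, rfl⟩
    exact hKP hx
  have hidx : (N.subgroupOf K).index ≠ 0 := by
    have h1 : N.relIndex K = Nat.card (K.map (QuotientGroup.mk' N)) := by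
      have := Subgroup.relIndex_ker K (QuotientGroup.mk' N)
      rwa [QuotientGroup.ker_mk'] at this
    change N.relIndex K ≠ 0
    rw [h1]
    have : Finite (K.map (QuotientGroup.mk' N)) := hmapfin.to_subtype
    exact Nat.card_pos.ne'
  have hfi : (N.subgroupOf K).FiniteIndex := ⟨hidx⟩
  have hfg : Group.FG (N.subgroupOf K) := Subgroup.fg_of_index_ne_zero (N.subgroupOf K)
  obtain ⟨T, hT, hTfin⟩ := (Subgroup.fg_iff _).mp ((Group.fg_iff_subgroup_fg _).mp hfg)
  have h1 := hN (K.subtype '' T) (hTfin.image _) (by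
    rintro _ ⟨y, hy, rfl⟩
    have : y ∈ N.subgroupOf K := by rw [← hT]; exact Subgroup.subset_closure hy
    exact Subgroup.mem_subgroupOf.mp this)
  have h2 : (N.subgroupOf K).map K.subtype = Subgroup.closure (K.subtype '' T) := by
    rw [← hT, MonoidHom.map_closure]
  rw [← h2] at h1
  have : Finite ((N.subgroupOf K).map K.subtype) := h1.to_subtype
  have h3 : Finite (N.subgroupOf K) :=
    Finite.of_injective (fun x : N.subgroupOf K =>
      (⟨K.subtype x, Subgroup.mem_map_of_mem _ x.2⟩ : (N.subgroupOf K).map K.subtype)) (by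
      intro x y hxy
      simp only [Subtype.mk.injEq] at hxy
      exact Subtype.ext (Subtype.ext hxy))
  have : Finite K := by
    apply Nat.finite_of_card_ne_zero
    rw [← Subgroup.card_mul_index (N.subgroupOf K)]
    exact mul_ne_zero Nat.card_pos.ne' hidx
  exact Set.toFinite (K : Set H)

/-- FC-hypercentral 2-groups are locally finite. -/
theorem locallyFinite_of_FCHypercentral {H : Type u} [Group H]
    (tor : ∀ g : H, ∃ k : ℕ, g ^ (2 ^ k) = 1) (h : FCHypercentral H) : LocallyFinite H := by
  have hbot : LF (⊥ : Subgroup H) := by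
    intro S _ hS
    have : Subgroup.closure S ≤ ⊥ := (Subgroup.closure_le _).mpr hS
    rw [le_bot_iff] at this
    rw [this]
    simp
  obtain ⟨N, _, hN⟩ := zorn_le_nonempty₀ {N : Subgroup H | N.Normal ∧ LF N} (by
    intro c hc hchain y hy
    refine ⟨sSup c, ⟨Subgroup.sSup_normal c (fun H hH => (hc hH).1), ?_⟩,
      fun z hz => le_sSup hz⟩
    intro S hS hSc
    have hsub : (hS.toFinset : Set H) ⊆ ⋃ i ∈ c, (i : Set H) := by
      intro s hs
      have hs' : s ∈ sSup c := hSc (by simpa using hs)
      rw [Subgroup.mem_sSup_of_directedOn ⟨y, hy⟩ hchain.directedOn] at hs'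
      simpa using hs'
    obtain ⟨K, hK, hSK⟩ := DirectedOn.exists_mem_subset_of_finset_subset_biUnion
      (f := fun i : Subgroup H => (i : Set H)) ⟨y, hy⟩ hchain.directedOn hsub
    exact (hc hK).2 S hS (by simpa using hSK)) ⊥ ⟨inferInstance, hbot⟩
  have hNn : N.Normal := hN.prop.1
  by_cases htop : N = ⊤
  · have hLF : LF (⊤ : Subgroup H) := htop ▸ hN.prop.2
    intro K hK
    obtain ⟨S, hS, hSfin⟩ := (Subgroup.fg_iff K).mp hK
    have := hLF S hSfin (Set.subset_univ _)
    rw [hS] at this
    exact this.to_subtype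
  · exfalso
    obtain ⟨x, hx, L, hL, hLx⟩ := h N hNn htop
    let π : H →* H ⧸ N := QuotientGroup.mk' N
    have hπ : Function.Surjective π := QuotientGroup.mk'_surjective N
    have hexpQ : ∀ g : H ⧸ N, ∃ k : ℕ, g ^ (2 ^ k) = 1 := by
      intro g
      obtain ⟨g, rfl⟩ := hπ g
      obtain ⟨k, hk⟩ := tor g
      exact ⟨k, by rw [← map_pow, hk, map_one]⟩
    have hcent : (Subgroup.centralizer {π x}).index ≠ 0 := by
      have h1 : L ≤ (Subgroup.centralizer {π x}).comap π := by
        intro g hg
        rw [Subgroup.mem_comap, Subgroup.mem_centralizer_singleton_iff]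
        have h2 : π (x * g * x⁻¹ * g⁻¹) = 1 := (QuotientGroup.eq_one_iff _).mpr (hLx g hg)
        simp only [map_mul, map_inv] at h2
        calc π g * π x = (π x * π g * (π x)⁻¹ * (π g)⁻¹) * (π g * π x) := by rw [h2, one_mul]
          _ = π x * π g := by group
      have h3 : ((Subgroup.centralizer {π x}).comap π).index ≠ 0 := by
        intro h0
        have h4 := Subgroup.index_dvd_of_le h1
        rw [h0] at h4
        exact hL.index_ne_zero (Nat.eq_zero_of_zero_dvd h4)
      rwa [Subgroup.index_comap_of_surjective _ hπ] at h3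
    have hfin := finite_closure_conj hexpQ (π x) hcent
    set P : Subgroup (H ⧸ N) := Subgroup.closure {y | ∃ g, y = g * π x * g⁻¹} with hP
    have hPn : P.Normal := by
      constructor
      intro n hn g
      have h1 : P ≤ P.comap (MulAut.conj g).toMonoidHom := by
        rw [hP, Subgroup.closure_le]
        rintro _ ⟨g', rfl⟩
        apply Subgroup.subset_closure
        refine ⟨g * g', ?_⟩
        change g * (g' * π x * g'⁻¹) * g⁻¹ = _
        group
      exact h1 hn
    have hLF : LF (P.comap π) := LF_comap N hN.prop.2 P hfin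
    have hle : N ≤ P.comap π := by
      intro n hn
      have : π n = 1 := (QuotientGroup.eq_one_iff n).mpr hn
      rw [Subgroup.mem_comap, this]
      exact P.one_mem
    have hmax : P.comap π ≤ N := hN.le_of_ge ⟨hPn.comap π, hLF⟩ hle
    apply hx
    apply hmax
    rw [Subgroup.mem_comap]
    apply Subgroup.subset_closure
    exact ⟨1, by group⟩

end MP63f86b
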