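import Pool.Agent.Lib.MP_63f86b_al.Local

/-!
# Infinite simple finitely generated 2-groups of finite exponent with locally finite
proper subgroups
-/

universe u

open scoped Pointwise

namespace MP63f86b

variable {G : Type u} [Group G]

theorem chain_sSup_ne_top (hfg : Group.FG G) (c : Set (Subgroup G)) (hc : IsChain (· ≤ ·) c)
    (hne : c.Nonempty) (h : ∀ H ∈ c, H ≠ ⊤) : sSup c ≠ ⊤ := by
  intro htop
  obtain ⟨S, hS, hfin⟩ := Group.fg_iff.mp hfg
  have hsub : (hfin.toFinset : Set G) ⊆ ⋃ i ∈ c, (i : Set G) := by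
    intro s _
    have hs : s ∈ sSup c := by rw [htop]; exact Subgroup.mem_top s
    rw [Subgroup.mem_sSup_of_directedOn hne hc.directedOn] at hs
    simpa using hs
  obtain ⟨H, hH, hSH⟩ := DirectedOn.exists_mem_subset_of_finset_subset_biUnion
    (f := fun i : Subgroup G => (i : Set G)) hne hc.directedOn hsub
  apply h H hH
  rw [eq_top_iff, ← hS, Subgroup.closure_le]
  intro s hs
  exact hSH (by simpa using hs)

/-- Every proper subgroup of a finitely generated group lies in a maximal subgroup. -/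
theorem exists_coatom (hfg : Group.FG G) (H : Subgroup G) (hH : H ≠ ⊤) :
    ∃ M : Subgroup G, IsCoatom M ∧ H ≤ M := by
  obtain ⟨M, hHM, hM⟩ := zorn_le_nonempty₀ {K : Subgroup G | K ≠ ⊤} (by
    intro c hc hchain y hy
    exact ⟨sSup c, chain_sSup_ne_top hfg c hchain ⟨y, hy⟩ hc, fun z hz => le_sSup hz⟩) H hH
  refine ⟨M, ⟨hM.prop, ?_⟩, hHM⟩
  intro K hK
  by_contra hne
  exact absurd (hM.le_of_ge hne hK.le) (not_le_of_gt hK)

/-- A finitely generated group has a maximal proper normal subgroup above any proper normal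
subgroup. -/
theorem exists_max_normal (hfg : Group.FG G) (N : Subgroup G) (hNn : N.Normal) (hN : N ≠ ⊤) :
    ∃ M : Subgroup G, M.Normal ∧ M ≠ ⊤ ∧ N ≤ M ∧
      ∀ K : Subgroup G, K.Normal → M ≤ K → K = M ∨ K = ⊤ := by
  obtain ⟨M, hHM, hM⟩ := zorn_le_nonempty₀ {K : Subgroup G | K.Normal ∧ K ≠ ⊤} (by
    intro c hc hchain y hy
    exact ⟨sSup c, ⟨Subgroup.sSup_normal c (fun H hH => (hc hH).1),
      chain_sSup_ne_top hfg c hchain ⟨y, hy⟩ (fun H hH => (hc hH).2)⟩,
      fun z hz => le_sSup hz⟩) N ⟨hNn, hN⟩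
  refine ⟨M, hM.prop.1, hM.prop.2, hHM, ?_⟩
  intro K hKn hK
  by_cases h : K = ⊤
  · exact Or.inr h
  · exact Or.inl (le_antisymm (hM.le_of_ge ⟨hKn, h⟩ hK) hK)

/-- Infinite simple finitely generated 2-groups with locally finite proper subgroups. -/
structure SimpleExample (G : Type u) [Group G] : Prop where
  fg : Group.FG G
  inf : Infinite G
  tor : ∀ g : G, ∃ k : ℕ, g ^ (2 ^ k) = 1
  simple : ∀ N : Subgroup G, N.Normal → N = ⊥ ∨ N = ⊤
  lf : ∀ H : Subgroup G, H ≠ ⊤ → LF H

namespace SimpleExample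

theorem eq_one_of_central (h : SimpleExample G) (x : G) (hx : ∀ g : G, g * x = x * g) :
    x = 1 := by
  by_contra hne
  have hn : (Subgroup.zpowers x).Normal := by
    constructor
    intro n hn g
    obtain ⟨i, rfl⟩ := Subgroup.mem_zpowers_iff.mp hn
    have h1 : Commute g x := hx g
    rw [(h1.zpow_right i).eq]
    simp
  rcases h.simple _ hn with h1 | h1
  · exact hne (Subgroup.zpowers_eq_bot.mp h1)
  · have hxfin : (Subgroup.zpowers x : Set G).Finite := by
      obtain ⟨k, hk⟩ := h.tor x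
      have : IsOfFinOrder x := isOfFinOrder_iff_pow_eq_one.mpr ⟨2 ^ k, by positivity, hk⟩
      exact this.finite_zpowers
    rw [h1] at hxfin
    have := h.inf
    exact Set.infinite_univ hxfin

theorem centralizer_ne_top (h : SimpleExample G) {x : G} (hx : x ≠ 1) :
    Subgroup.centralizer {x} ≠ ⊤ := by
  intro htop
  apply hx
  apply h.eq_one_of_central
  intro g
  have : g ∈ Subgroup.centralizer {x} := by rw [htop]; exact Subgroup.mem_top g
  exact Subgroup.mem_centralizer_singleton_iff.mp this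

end SimpleExample

theorem exists_involution_pow (tor : ∀ g : G, ∃ k : ℕ, g ^ (2 ^ k) = 1) (x : G) (hx : x ≠ 1) :
    ∃ j, x ^ (2 ^ j) ≠ 1 ∧ x ^ (2 ^ j) * x ^ (2 ^ j) = 1 := by
  classical
  have hex : ∃ m, x ^ (2 ^ m) = 1 := tor x
  have h1 : x ^ (2 ^ Nat.find hex) = 1 := Nat.find_spec hex
  have h2 : ∀ j < Nat.find hex, x ^ (2 ^ j) ≠ 1 := fun j hj => Nat.find_min hex hj
  have hm0 : Nat.find hex ≠ 0 := by
    intro h0
    rw [h0] at h1
    simp at h1
    exact hx h1
  obtain ⟨j, hj⟩ := Nat.exists_eq_succ_of_ne_zero hm0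
  refine ⟨j, h2 j (by omega), ?_⟩
  rw [← pow_add, ← two_mul, ← pow_succ', ← Nat.succ_eq_add_one, ← hj]
  exact h1

/-- Two involutions of a 2-group commute with a common involution. -/
theorem exists_common_involution (tor : ∀ g : G, ∃ k : ℕ, g ^ (2 ^ k) = 1) (s t : G)
    (hs : s ≠ 1) (hs2 : s * s = 1) (ht2 : t * t = 1) :
    ∃ u : G, u ≠ 1 ∧ u * u = 1 ∧ s * u = u * s ∧ t * u = u * t := by
  by_cases hr : s * t = 1
  · refine ⟨s, hs, hs2, rfl, ?_⟩
    have : s = t := by
      calc s = s * (t * t) := by rw [ht2, mul_one]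
        _ = (s * t) * t := by group
        _ = t := by rw [hr, one_mul]
    rw [this]
  · have hex : ∃ m, (s * t) ^ (2 ^ m) = 1 := tor _
    classical
    set m := Nat.find hex with hm
    have h1 : (s * t) ^ (2 ^ m) = 1 := Nat.find_spec hex
    have h2 : ∀ j < m, (s * t) ^ (2 ^ j) ≠ 1 := fun j hj => Nat.find_min hex hj
    have hm0 : m ≠ 0 := by
      intro h0
      rw [h0] at h1
      simp at h1
      exact hr h1
    obtain ⟨j, hj⟩ := Nat.exists_eq_succ_of_ne_zero hm0
    have hsi : s⁻¹ = s := inv_eq_of_mul_eq_one_left hs2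
    have hti : t⁻¹ = t := inv_eq_of_mul_eq_one_left ht2
    have hsr : s * (s * t) * s⁻¹ = (s * t)⁻¹ := by
      rw [mul_inv_rev, hsi, hti]
      calc s * (s * t) * s = (s * s) * (t * s) := by group
        _ = t * s := by rw [hs2, one_mul]
    have htr : t * (s * t) * t⁻¹ = (s * t)⁻¹ := by
      rw [mul_inv_rev, hsi, hti]
      calc t * (s * t) * t = (t * s) * (t * t) := by group
        _ = t * s := by rw [ht2, mul_one]
    have huu : (s * t) ^ (2 ^ j) * (s * t) ^ (2 ^ j) = 1 := by
      rw [← pow_add, ← two_mul, ← pow_succ', ← Nat.succ_eq_add_one, ← hj]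
      exact h1
    refine ⟨(s * t) ^ (2 ^ j), h2 j (by omega), huu, ?_, ?_⟩
    · have h3 : s * (s * t) ^ (2 ^ j) * s⁻¹ = (s * t) ^ (2 ^ j) := by
        rw [← conj_pow, hsr, inv_pow]
        exact inv_eq_of_mul_eq_one_left huu
      calc s * (s * t) ^ (2 ^ j) = (s * (s * t) ^ (2 ^ j) * s⁻¹) * s := by group
        _ = (s * t) ^ (2 ^ j) * s := by rw [h3]
    · have h3 : t * (s * t) ^ (2 ^ j) * t⁻¹ = (s * t) ^ (2 ^ j) := by
        rw [← conj_pow, htr, inv_pow]
        exact inv_eq_of_mul_eq_one_left huu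
      calc t * (s * t) ^ (2 ^ j) = (t * (s * t) ^ (2 ^ j) * t⁻¹) * t := by group
        _ = (s * t) ^ (2 ^ j) * t := by rw [h3]

namespace SimpleExample

/-- If an involution has finite centralizer then there are infinitely many involutions. -/
theorem infinite_involutions (h : SimpleExample G) (t : G) (ht : t ≠ 1) (ht2 : t * t = 1)
    (hfin : (Subgroup.centralizer {t} : Set G).Finite)
    (hinv : {s : G | s ≠ 1 ∧ s * s = 1}.Finite) : False := by
  -- the conjugates of `t` are finitely many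
  have hall : ((fun g : G => g * t * g⁻¹) ⁻¹' {s : G | s ≠ 1 ∧ s * s = 1}).Finite := by
    apply Set.Finite.preimage' hinv
    intro b _
    by_cases hb : ∃ g0 : G, g0 * t * g0⁻¹ = b
    · obtain ⟨g0, rfl⟩ := hb
      apply (hfin.image (fun c => g0 * c)).subset
      intro g hg
      have hg' : g * t * g⁻¹ = g0 * t * g0⁻¹ := hg
      refine ⟨g0⁻¹ * g, ?_, by simp⟩
      change g0⁻¹ * g ∈ Subgroup.centralizer {t}
      rw [Subgroup.mem_centralizer_singleton_iff]
      calc g0⁻¹ * g * t = g0⁻¹ * (g * t * g⁻¹) * g := by group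
        _ = g0⁻¹ * (g0 * t * g0⁻¹) * g := by rw [hg']
        _ = t * (g0⁻¹ * g) := by group
    · have : (fun g : G => g * t * g⁻¹) ⁻¹' {b} = ∅ := by
        ext g
        simp only [Set.mem_preimage, Set.mem_singleton_iff, Set.mem_empty_iff_false, iff_false]
        exact fun hg => hb ⟨g, hg⟩
      rw [this]
      exact Set.finite_empty
  have huniv : (Set.univ : Set G).Finite := by
    apply hall.subset
    intro g _
    refine ⟨?_, ?_⟩
    · intro h1
      apply ht
      have h1' : g * t * g⁻¹ = 1 := h1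
      have : t = g⁻¹ * (g * t * g⁻¹) * g := by group
      rw [this, h1']; group
    · calc g * t * g⁻¹ * (g * t * g⁻¹) = g * (t * t) * g⁻¹ := by group
        _ = 1 := by rw [ht2]; group
  have := h.inf
  exact Set.infinite_univ huniv

theorem finite_zpowers (h : SimpleExample G) (x : G) : (Subgroup.zpowers x : Set G).Finite := by
  obtain ⟨k, hk⟩ := h.tor x
  have : IsOfFinOrder x := isOfFinOrder_iff_pow_eq_one.mpr ⟨2 ^ k, by positivity, hk⟩
  exact this.finite_zpowers

theorem coatom_ne_bot (h : SimpleExample G) (M : Subgroup G) (hM : IsCoatom M) : M ≠ ⊥ := by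
  rintro rfl
  have := h.inf
  obtain ⟨x, hx⟩ := exists_ne (1 : G)
  have h1 : (⊥ : Subgroup G) < Subgroup.zpowers x := by
    rw [bot_lt_iff_ne_bot]
    intro h2
    exact hx (Subgroup.zpowers_eq_bot.mp h2)
  have h2 := hM.2 _ h1
  have h3 := h.finite_zpowers x
  rw [h2] at h3
  exact Set.infinite_univ h3

/-- Maximal subgroups are infinite. -/
theorem infinite_of_coatom (h : SimpleExample G)
    (hcent : ∀ t : G, t ≠ 1 → t * t = 1 → (Subgroup.centralizer {t} : Set G).Infinite)
    (M : Subgroup G) (hM : IsCoatom M) :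
    (M : Set G).Infinite := by
  intro hfin
  have : Finite M := hfin.to_subtype
  have hnt : Nontrivial M := (Subgroup.nontrivial_iff_ne_bot M).mpr (h.coatom_ne_bot M hM)
  have hp : IsPGroup 2 M := fun g => by
    obtain ⟨k, hk⟩ := h.tor g
    exact ⟨k, by apply Subtype.ext; simpa using hk⟩
  have : Fact (Nat.Prime 2) := ⟨Nat.prime_two⟩
  have hcn := hp.center_nontrivial
  obtain ⟨⟨z, hz⟩, hz1⟩ := exists_ne (1 : Subgroup.center M)
  have hz1' : (z : G) ≠ 1 := by
    intro h1
    apply hz1
    exact Subtype.ext (Subtype.ext h1)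
  obtain ⟨j, hj1, hj2⟩ := exists_involution_pow h.tor z.1 hz1'
  have hMC : M ≤ Subgroup.centralizer {(z : G) ^ (2 ^ j)} := by
    intro g hg
    rw [Subgroup.mem_centralizer_singleton_iff]
    have h1 := congrArg Subtype.val (Subgroup.mem_center_iff.mp hz ⟨g, hg⟩)
    have h2 : Commute g (z : G) := h1
    exact (h2.pow_right _).eq
  have hC := h.centralizer_ne_top hj1
  have hMeq : M = Subgroup.centralizer {(z : G) ^ (2 ^ j)} := by
    rcases hMC.eq_or_lt with h1 | h1
    · exact h1
    · exact absurd (hM.2 _ h1) hC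
  have := hcent _ hj1 hj2
  rw [← hMeq] at this
  exact this hfin

/-- Finite exponent: the centralizer in an infinite proper subgroup `H` of an element `z`
normalising it with `z^2` centralising it is infinite. -/
theorem infinite_fix (h : SimpleExample G) (k : ℕ) (hexp : ∀ g : G, g ^ (2 ^ k) = 1)
    (H : Subgroup G) (hH : H ≠ ⊤)
    (hinf : (H : Set G).Infinite) (z : G) (hz : ∀ g ∈ H, z * g * z⁻¹ ∈ H)
    (hzz : ∀ g ∈ H, z * z * g = g * (z * z)) :
    ((H ⊓ Subgroup.centralizer {z} : Subgroup G) : Set G).Infinite := by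
  intro hfin
  apply hinf
  apply finite_of_finite_fix k hexp H (h.lf H hH) z hz hzz
  apply hfin.subset
  rintro g ⟨h1, h2⟩
  exact ⟨h1, Subgroup.mem_centralizer_singleton_iff.mpr h2.symm⟩

/-- Finite exponent: every involution has an infinite centralizer. -/
theorem infinite_centralizer_exp (h : SimpleExample G) (k : ℕ)
    (hexp : ∀ g : G, g ^ (2 ^ k) = 1) (t : G) (ht : t ≠ 1) (ht2 : t * t = 1) :
    (Subgroup.centralizer {t} : Set G).Infinite := by
  intro hfin
  -- the set of all involutions is finite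
  have hC : ∀ u : G, u ≠ 1 → t * u = u * t → (Subgroup.centralizer {u} : Set G).Finite := by
    intro u hu htu
    apply finite_of_finite_fix k hexp _ (h.lf _ (h.centralizer_ne_top hu)) t
    · intro g hg
      rw [Subgroup.mem_centralizer_singleton_iff] at hg ⊢
      calc t * g * t⁻¹ * u = t * g * t⁻¹ * (u * t) * t⁻¹ := by group
        _ = t * g * t⁻¹ * (t * u) * t⁻¹ := by rw [htu]
        _ = t * (g * u) * t⁻¹ := by group
        _ = t * (u * g) * t⁻¹ := by rw [hg]
        _ = (t * u) * (g * t⁻¹) := by group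
        _ = (u * t) * (g * t⁻¹) := by rw [htu]
        _ = u * (t * g * t⁻¹) := by group
    · intro g _
      rw [ht2, one_mul, mul_one]
    · apply hfin.subset
      rintro g ⟨_, hg⟩
      exact Subgroup.mem_centralizer_singleton_iff.mpr hg.symm
  have hinv : {s : G | s ≠ 1 ∧ s * s = 1}.Finite := by
    have hU : (⋃ u ∈ {u : G | u ∈ Subgroup.centralizer {t} ∧ u ≠ 1},
        (Subgroup.centralizer {u} : Set G)).Finite := by
      apply Set.Finite.biUnion
      · exact hfin.subset (fun u hu => hu.1)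
      · intro u hu
        exact hC u hu.2 (Subgroup.mem_centralizer_singleton_iff.mp hu.1).symm
    apply hU.subset
    rintro s ⟨hs1, hs2⟩
    obtain ⟨u, hu1, -, hsu, htu⟩ := exists_common_involution h.tor s t hs1 hs2 ht2
    refine Set.mem_biUnion (x := u) ⟨?_, hu1⟩ ?_
    · exact Subgroup.mem_centralizer_singleton_iff.mpr htu.symm
    · exact Subgroup.mem_centralizer_singleton_iff.mpr hsu
  exact h.infinite_involutions t ht ht2 hfin hinv

end SimpleExample

end MP63f86b
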